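import Mathlib

/-!
# Project PT: the part of `n` composed of the primes of a set of density zero

For almost all `n` it is at most `n ^ ε`.
-/

set_option autoImplicit false

namespace Pool.Agent.H47.PT.Ex

open Filter Topology Real Finset

noncomputable section

/-- number of the primes in `B` -/
def pB (B : ℕ → Prop) (N : ℕ) : ℕ := Nat.card {p : ℕ // p ≤ N ∧ p.Prime ∧ B p}

open Classical in
theorem pB_eq (B : ℕ → Prop) (N : ℕ) : pB B N = ((range (N + 1)).filter fun p => p.Prime ∧ B p).card := by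
  unfold pB
  rw [← Nat.card_eq_finsetCard]
  refine Nat.card_congr (Equiv.subtypeEquivRight fun p => ?_)
  rw [Finset.mem_filter, Finset.mem_range, Nat.lt_succ_iff]

theorem pB_le (B : ℕ → Prop) (N : ℕ) : pB B N ≤ Nat.primeCounting N := by
  classical
  rw [pB_eq, Nat.primeCounting, Nat.primeCounting', Nat.count_eq_card_filter_range]
  refine Finset.card_le_card fun p hp => ?_
  rw [Finset.mem_filter] at hp ⊢
  exact ⟨hp.1, hp.2.1⟩

theorem u_tendsto (B : ℕ → Prop)
    (hB : Tendsto (fun N : ℕ => (pB B N : ℝ) / (Nat.primeCounting N : ℝ)) atTop (𝓝 0)) :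
    Tendsto (fun k : ℕ => (pB B (2 ^ (k + 1)) : ℝ) * ((k + 1) * Real.log 2 / 2 ^ k)) atTop (𝓝 0) := by
  have h2 : Tendsto (fun k : ℕ => 2 ^ (k + 1)) atTop (atTop : Filter ℕ) :=
    (tendsto_pow_atTop_atTop_of_one_lt (by norm_num : 1 < 2)).comp (tendsto_add_atTop_nat 1)
  have h3 := (hB.comp h2).const_mul ((Real.log 4 + 1) * 2)
  rw [mul_zero] at h3
  have h4 := ((tendsto_natCast_atTop_atTop (R := ℝ)).comp h2).eventually
    (Chebyshev.eventually_primeCounting_le (ε := 1) one_pos)
  have hl2 : 0 < Real.log 2 := Real.log_pos (by norm_num)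
  refine squeeze_zero' (Eventually.of_forall fun k => by positivity) ?_ h3
  filter_upwards [h4] with k hk
  simp only [Function.comp_apply, Nat.floor_natCast] at hk ⊢
  have h5 : Real.log ((2 ^ (k + 1) : ℕ) : ℝ) = (k + 1) * Real.log 2 := by
    rw [Nat.cast_pow, Real.log_pow]
    push_cast
    ring
  rw [h5] at hk
  have hk1 : (0 : ℝ) < (k + 1) * Real.log 2 := by positivity
  have hp : (0 : ℝ) < (2 : ℝ) ^ k := by positivity
  have hpi : (0 : ℝ) < Nat.primeCounting (2 ^ (k + 1)) := by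
    have : 0 < Nat.primeCounting (2 ^ (k + 1)) := by
      rw [Nat.primeCounting, Nat.primeCounting', Nat.count_eq_card_filter_range, Finset.card_pos]
      refine ⟨2, ?_⟩
      rw [Finset.mem_filter, Finset.mem_range]
      refine ⟨?_, Nat.prime_two⟩
      have := Nat.pow_le_pow_right (n := 2) (by norm_num) (show 1 ≤ k + 1 by omega)
      omega
    exact_mod_cast this
  have h6 : (Nat.primeCounting (2 ^ (k + 1)) : ℝ) * ((k + 1) * Real.log 2 / 2 ^ k) ≤ (Real.log 4 + 1) * 2 := by
    rw [le_div_iff₀ hk1] at hk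
    rw [← mul_div_assoc, div_le_iff₀ hp]
    refine hk.trans (le_of_eq ?_)
    push_cast
    ring
  have e : (pB B (2 ^ (k + 1)) : ℝ) * ((k + 1) * Real.log 2 / 2 ^ k) =
      ((pB B (2 ^ (k + 1)) : ℝ) / Nat.primeCounting (2 ^ (k + 1))) *
        ((Nat.primeCounting (2 ^ (k + 1)) : ℝ) * ((k + 1) * Real.log 2 / 2 ^ k)) := by
    field_simp
  rw [e, mul_comm ((Real.log 4 + 1) * 2)]
  exact mul_le_mul_of_nonneg_left h6 (by positivity)

open Classical in
/-- the primes in `B` up to `N` -/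
def PB (B : ℕ → Prop) (N : ℕ) : Finset ℕ := (range (N + 1)).filter fun p => p.Prime ∧ B p

theorem mem_PB (B : ℕ → Prop) (N p : ℕ) : p ∈ PB B N ↔ p ≤ N ∧ p.Prime ∧ B p := by
  classical
  rw [PB, Finset.mem_filter, Finset.mem_range, Nat.lt_succ_iff]

theorem U_le (B : ℕ → Prop) (N : ℕ) :
    ∑ p ∈ PB B N, Real.log p / p ≤
      ∑ k ∈ range (Nat.log 2 N + 1), (pB B (2 ^ (k + 1)) : ℝ) * ((k + 1) * Real.log 2 / 2 ^ k) := by
  classical
  rw [← Finset.sum_fiberwise_of_maps_to (s := PB B N) (t := range (Nat.log 2 N + 1)) (g := fun p => Nat.log 2 p)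
    (fun p hp => by
      rw [Finset.mem_range, Nat.lt_succ_iff]
      exact Nat.log_mono_right ((mem_PB B N p).1 hp).1)]
  refine Finset.sum_le_sum fun k _ => ?_
  have h1 : ∀ p ∈ (PB B N).filter (fun p => Nat.log 2 p = k), Real.log p / p ≤ (k + 1) * Real.log 2 / 2 ^ k := by
    intro p hp
    rw [Finset.mem_filter, mem_PB] at hp
    obtain ⟨⟨_, hpp, _⟩, hk⟩ := hp
    have h2 : 2 ^ k ≤ p := by
      rw [← hk]
      exact Nat.pow_log_le_self 2 hpp.ne_zero
    have h3 : p < 2 ^ (k + 1) := by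
      rw [← hk]
      exact Nat.lt_pow_succ_log_self (by norm_num) p
    have h2' : (2 : ℝ) ^ k ≤ p := by exact_mod_cast h2
    have h3' : (p : ℝ) ≤ 2 ^ (k + 1) := by exact_mod_cast h3.le
    have hp0 : (0 : ℝ) < p := by exact_mod_cast hpp.pos
    have h4 : Real.log p ≤ (k + 1) * Real.log 2 := by
      have := Real.log_le_log hp0 h3'
      rw [Real.log_pow] at this
      push_cast at this
      exact this
    exact div_le_div₀ (by positivity) h4 (by positivity) h2'
  refine (Finset.sum_le_card_nsmul _ _ _ h1).trans ?_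
  rw [nsmul_eq_mul]
  refine mul_le_mul_of_nonneg_right ?_ (by positivity)
  rw [Nat.cast_le, pB_eq]
  refine Finset.card_le_card fun p hp => ?_
  rw [Finset.mem_filter, mem_PB] at hp
  obtain ⟨⟨_, hpp, hB⟩, hk⟩ := hp
  rw [Finset.mem_filter, Finset.mem_range]
  refine ⟨?_, hpp, hB⟩
  have h3 : p < 2 ^ (k + 1) := by
    rw [← hk]
    exact Nat.lt_pow_succ_log_self (by norm_num) p
  omega

open Classical in
/-- the part of `n` composed of primes in `B` -/
def bp (B : ℕ → Prop) (n : ℕ) : ℕ := ∏ p ∈ n.primeFactors.filter B, p ^ n.factorization p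

theorem bp_pos (B : ℕ → Prop) (n : ℕ) : 0 < bp B n := by
  classical
  exact Finset.prod_pos fun _ hp => pow_pos (Nat.pos_of_mem_primeFactors (Finset.mem_filter.1 hp).1) _

theorem bp_split (B : ℕ → Prop) (n : ℕ) (hn : n ≠ 0) : n = bp (fun p => ¬ B p) n * bp B n := by
  classical
  have h := Nat.prod_factorization_pow_eq_self hn
  rw [Finsupp.prod, Nat.support_factorization, ← Finset.prod_filter_mul_prod_filter_not _ B] at h
  rw [mul_comm]
  unfold bp
  refine h.symm.trans ?_
  congr 1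
  refine Finset.prod_congr ?_ fun _ _ => rfl
  ext p
  simp only [Finset.mem_filter]

theorem bp_prime (B : ℕ → Prop) (n p : ℕ) (hp : p.Prime) (h : p ∣ bp B n) : B p := by
  classical
  unfold bp at h
  obtain ⟨q, hq, h1⟩ := (Nat.Prime.prime hp).exists_mem_finset_dvd h
  rw [Finset.mem_filter] at hq
  have h2 := (Nat.prime_dvd_prime_iff_eq hp (Nat.prime_of_mem_primeFactors hq.1)).1 (hp.dvd_of_dvd_pow h1)
  rw [h2]
  exact hq.2

theorem log_bp (B : ℕ → Prop) (N n : ℕ) (hn0 : n ≠ 0) (hn : n ≤ N) :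
    Real.log (bp B n) = ∑ p ∈ PB B N, (n.factorization p : ℝ) * Real.log p := by
  classical
  unfold bp
  rw [Nat.cast_prod, Real.log_prod (fun p hp => by
    have := Nat.pos_of_mem_primeFactors (Finset.mem_filter.1 hp).1
    have : (0 : ℝ) < p := by exact_mod_cast this
    push_cast
    positivity)]
  refine Finset.sum_subset_zero_on_sdiff (fun p hp => ?_) (fun p hp => ?_) (fun p hp => ?_)
  · rw [Finset.mem_filter] at hp
    have h1 := Nat.prime_of_mem_primeFactors hp.1
    exact (mem_PB B N p).2 ⟨(Nat.le_of_mem_primeFactors hp.1).trans hn, h1, hp.2⟩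
  · rw [Finset.mem_sdiff, mem_PB, Finset.mem_filter] at hp
    have : ¬ p ∣ n := by
      intro hd
      exact hp.2 ⟨Nat.mem_primeFactors.2 ⟨hp.1.2.1, hd, hn0⟩, hp.1.2.2⟩
    rw [Nat.factorization_eq_zero_of_not_dvd this]
    simp
  · push_cast
    rw [Real.log_pow]

theorem sum_log (B : ℕ → Prop) (N : ℕ) :
    ∑ n ∈ Finset.Icc 1 N, Real.log (bp B n) ≤ 2 * N * ∑ p ∈ PB B N, Real.log p / p := by
  have h1 : ∑ n ∈ Finset.Icc 1 N, Real.log (bp B n) =
      ∑ p ∈ PB B N, (((N.factorial).factorization p : ℕ) : ℝ) * Real.log p := by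
    rw [Finset.sum_congr rfl fun n hn => log_bp B N n (by
      have := (Finset.mem_Icc.1 hn).1
      omega) (Finset.mem_Icc.1 hn).2, Finset.sum_comm]
    refine Finset.sum_congr rfl fun p _ => ?_
    rw [← Finset.sum_mul]
    congr 1
    have hI : Finset.Ico 1 (N + 1) = Finset.Icc 1 N := by
      ext x
      rw [Finset.mem_Ico, Finset.mem_Icc]
      omega
    rw [← Finset.prod_Ico_id_eq_factorial, hI, Nat.factorization_prod (fun n hn => by
      have := (Finset.mem_Icc.1 hn).1
      omega), Finset.sum_apply', Nat.cast_sum]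
  rw [h1, Finset.mul_sum]
  refine Finset.sum_le_sum fun p hp => ?_
  obtain ⟨_, hpp, _⟩ := (mem_PB B N p).1 hp
  have hp2 := hpp.two_le
  have h2 := Nat.factorization_factorial_le_div_pred hpp N
  have h3 : (N.factorial).factorization p * p ≤ 2 * N := by
    have h4 : (N.factorial).factorization p * (p - 1) ≤ N := (Nat.mul_le_mul_right _ h2).trans (Nat.div_mul_le_self _ _)
    have h5 : p ≤ 2 * (p - 1) := by omega
    calc (N.factorial).factorization p * p ≤ (N.factorial).factorization p * (2 * (p - 1)) := Nat.mul_le_mul_left _ h5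
      _ = 2 * ((N.factorial).factorization p * (p - 1)) := by ring
      _ ≤ 2 * N := Nat.mul_le_mul_left _ h4
  have hp0 : (0 : ℝ) < p := by exact_mod_cast hpp.pos
  have hlog : 0 ≤ Real.log p := Real.log_nonneg (by exact_mod_cast hpp.one_le)
  have h6 : ((N.factorial).factorization p : ℝ) ≤ 2 * N / p := by
    rw [le_div_iff₀ hp0]
    exact_mod_cast h3
  calc ((N.factorial).factorization p : ℝ) * Real.log p ≤ 2 * N / p * Real.log p :=
        mul_le_mul_of_nonneg_right h6 hlog
    _ = _ := by ring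

theorem U_small (B : ℕ → Prop)
    (hB : Tendsto (fun N : ℕ => (pB B N : ℝ) / (Nat.primeCounting N : ℝ)) atTop (𝓝 0)) :
    Tendsto (fun N : ℕ => (∑ p ∈ PB B N, Real.log p / p) / Real.log N) atTop (𝓝 0) := by
  have h1 := (u_tendsto B hB).cesaro
  have h2 : Tendsto (fun N : ℕ => Nat.log 2 N + 1) atTop atTop := by
    refine tendsto_atTop.2 fun b => ?_
    filter_upwards [eventually_ge_atTop (2 ^ b)] with N hN
    have h0 : N ≠ 0 := by
      have := Nat.pos_of_ne_zero (pow_ne_zero b (two_ne_zero : (2 : ℕ) ≠ 0))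
      omega
    have := (Nat.le_log_iff_pow_le (by norm_num : 1 < 2) h0).2 hN
    omega
  have h3 := (h1.comp h2).const_mul (2 / Real.log 2)
  rw [mul_zero] at h3
  have hl2 : 0 < Real.log 2 := Real.log_pos (by norm_num)
  refine squeeze_zero' ?_ ?_ h3
  · filter_upwards with N
    refine div_nonneg (Finset.sum_nonneg fun p hp => ?_) (Real.log_natCast_nonneg N)
    exact div_nonneg (Real.log_natCast_nonneg p) (Nat.cast_nonneg p)
  · filter_upwards [eventually_ge_atTop 2] with N hN
    set K := Nat.log 2 N with hK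
    have hK1 : 1 ≤ K := by
      rw [hK]
      exact (Nat.le_log_iff_pow_le (by norm_num : 1 < 2) (by omega)).2 (by simpa using hN)
    have h4 : (K : ℝ) * Real.log 2 ≤ Real.log N := by
      have h5 : 2 ^ K ≤ N := Nat.pow_log_le_self 2 (by omega)
      have h6 : ((2 : ℝ) ^ K) ≤ N := by exact_mod_cast h5
      have := Real.log_le_log (by positivity) h6
      rwa [Real.log_pow] at this
    have hK1' : (1 : ℝ) ≤ K := by exact_mod_cast hK1
    have h7 : ((K : ℝ) + 1) / 2 * Real.log 2 ≤ Real.log N := by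
      refine le_trans ?_ h4
      exact mul_le_mul_of_nonneg_right (by linarith) hl2.le
    have h8 : 0 < ((K : ℝ) + 1) / 2 * Real.log 2 := by positivity
    have h9 : 0 ≤ ∑ k ∈ range (K + 1), (pB B (2 ^ (k + 1)) : ℝ) * ((k + 1) * Real.log 2 / 2 ^ k) :=
      Finset.sum_nonneg fun k _ => by positivity
    refine (div_le_div₀ h9 (U_le B N) h8 h7).trans (le_of_eq ?_)
    simp only [Function.comp_apply]
    rw [← hK]
    generalize (∑ k ∈ range (K + 1), (pB B (2 ^ (k + 1)) : ℝ) * ((k + 1) * Real.log 2 / 2 ^ k)) = X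
    push_cast
    field_simp

theorem main (B : ℕ → Prop)
    (hB : Tendsto (fun N : ℕ => (pB B N : ℝ) / (Nat.primeCounting N : ℝ)) atTop (𝓝 0)) (ε : ℝ) (hε : 0 < ε) :
    Tendsto (fun N : ℕ => (Nat.card {n : ℕ // n ≤ N ∧ 0 < n ∧ (n : ℝ) ^ ε < bp B n} : ℝ) / (N : ℝ)) atTop (𝓝 0) := by
  classical
  have h1 := (U_small B hB).const_mul (4 / ε)
  rw [mul_zero] at h1
  have h2 : Tendsto (fun N : ℕ => Real.sqrt N / (N : ℝ)) atTop (𝓝 0) := by
    have e : ∀ᶠ N : ℕ in atTop, (Real.sqrt N)⁻¹ = Real.sqrt N / (N : ℝ) := by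
      filter_upwards [eventually_gt_atTop 0] with N hN
      have : (0 : ℝ) < N := by exact_mod_cast hN
      rw [inv_eq_one_div, div_eq_div_iff (Real.sqrt_pos.2 this).ne' this.ne', one_mul, Real.mul_self_sqrt this.le]
    refine Tendsto.congr' e ?_
    exact tendsto_inv_atTop_zero.comp (Real.tendsto_sqrt_atTop.comp tendsto_natCast_atTop_atTop)
  have h3 := h2.add h1
  rw [add_zero] at h3
  refine squeeze_zero' (Eventually.of_forall fun N => by positivity) ?_ h3
  filter_upwards [eventually_ge_atTop 2] with N hN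
  have hN0 : (0 : ℝ) < N := by
    have : 0 < N := by omega
    exact_mod_cast this
  have hlog : 0 < Real.log N := Real.log_pos (by exact_mod_cast (by omega : 1 < N))
  set s : Finset ℕ := (Finset.Icc 1 N).filter fun n => (n : ℝ) ^ ε < bp B n with hs
  set t : Finset ℕ := s.filter fun n => Real.sqrt N ≤ (n : ℝ) with ht
  have hcard : Nat.card {n : ℕ // n ≤ N ∧ 0 < n ∧ (n : ℝ) ^ ε < bp B n} = s.card := by
    rw [← Nat.card_eq_finsetCard]
    refine Nat.card_congr (Equiv.subtypeEquivRight fun n => ?_)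
    rw [hs, Finset.mem_filter, Finset.mem_Icc]
    exact ⟨fun h => ⟨⟨h.2.1, h.1⟩, h.2.2⟩, fun h => ⟨h.1.2, h.1.1, h.2⟩⟩
  have h4 : (s.card : ℝ) ≤ Real.sqrt N + t.card := by
    have h5 : s.card = (s.filter fun n : ℕ => ¬ Real.sqrt N ≤ (n : ℝ)).card + t.card := by
      rw [add_comm]
      exact (Finset.card_filter_add_card_filter_not (s := s) (fun n : ℕ => Real.sqrt N ≤ (n : ℝ))).symm
    rw [h5]
    push_cast
    refine add_le_add ?_ le_rfl
    have h6 : (s.filter fun n : ℕ => ¬ Real.sqrt N ≤ (n : ℝ)) ⊆ Finset.Icc 1 ⌊Real.sqrt N⌋₊ := by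
      intro n hn
      rw [Finset.mem_filter, hs, Finset.mem_filter, Finset.mem_Icc] at hn
      rw [Finset.mem_Icc]
      exact ⟨hn.1.1.1, Nat.le_floor (not_le.1 hn.2).le⟩
    have h7 := Finset.card_le_card h6
    rw [Nat.card_Icc, Nat.add_sub_cancel] at h7
    exact le_trans (by exact_mod_cast h7) (Nat.floor_le (Real.sqrt_nonneg _))
  have h5 : (t.card : ℝ) * (ε / 2 * Real.log N) ≤ 2 * N * ∑ p ∈ PB B N, Real.log p / p := by
    refine le_trans ?_ (sum_log B N)
    have h6 : t ⊆ Finset.Icc 1 N := fun n hn => by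
      rw [ht, Finset.mem_filter, hs, Finset.mem_filter] at hn
      exact hn.1.1
    refine le_trans ?_ (Finset.sum_le_sum_of_subset_of_nonneg h6 fun n _ _ => Real.log_natCast_nonneg _)
    rw [← nsmul_eq_mul]
    refine Finset.card_nsmul_le_sum _ _ _ fun n hn => ?_
    rw [ht, Finset.mem_filter, hs, Finset.mem_filter, Finset.mem_Icc] at hn
    obtain ⟨⟨⟨hn1, _⟩, hn2⟩, hn3⟩ := hn
    have hn0 : (0 : ℝ) < n := by exact_mod_cast hn1
    have h7 : Real.log N / 2 ≤ Real.log n := by
      rw [← Real.log_sqrt hN0.le]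
      exact Real.log_le_log (Real.sqrt_pos.2 hN0) hn3
    have h8 := Real.log_le_log (Real.rpow_pos_of_pos hn0 ε) hn2.le
    rw [Real.log_rpow hn0] at h8
    refine le_trans ?_ h8
    have := mul_le_mul_of_nonneg_left h7 hε.le
    linarith
  rw [hcard]
  have h6 : (t.card : ℝ) ≤ 4 / ε * ((∑ p ∈ PB B N, Real.log p / p) / Real.log N) * N := by
    have h7 : 0 < ε / 2 * Real.log N := by positivity
    rw [← le_div_iff₀ h7] at h5
    refine h5.trans (le_of_eq ?_)
    field_simp
    ring
  rw [div_le_iff₀ hN0, add_mul]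
  have h7 : Real.sqrt N / N * N = Real.sqrt N := by field_simp
  rw [h7]
  linarith

end

end Pool.Agent.H47.PT.Ex
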