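import Pool.Agent.H47.PT.One
import Pool.Agent.H47.PT.Ex

/-!
# Project PT: all periods

For `n = m b` with `m` composed of good primes the index divides `n ^ (g-1) b`.
-/

set_option autoImplicit false

namespace Pool.Agent.H47.PT.AllN

open Matrix Polynomial Pool.Agent.H47.PF Pool.Agent.H47.PF.Cnt Pool.Agent.H47.PF.Lk Pool.Agent.H47.PF.Fx
open Pool.Agent.H47.PD.Asm Pool.Agent.H47.PT.Comp Filter Topology
open Pool.Agent.Helper346.Bra Pool.Agent.Helper18.Br Pool.Agent.H552R3.SymBr Pool.Agent.H552R3.SymPred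
  Pool.Agent.H552R3.Tsen Pool.Agent.Y109.PI Pool.Agent.Q128.PI Pool.Agent.Helper929

noncomputable section

universe u

section

variable {k K : Type u} [Field k] [IsAlgClosed k] [Field K] [Algebra k K]

include k in
/-- a translate by a relation whose Pfaffian is divisible by a part of `n` -/
theorem index_of_pf_nb (n : ℕ) (hn : 0 < n) (m b₀ : ℕ) (hm : 0 < m) (hb₀ : 0 < b₀) (hmb : n = m * b₀) {ζ : K} (hζ : IsPrimitiveRoot ζ n) (g : ℕ)
    (hg : 0 < g) (z : Fin (2 * g) → Kˣ) (w a : Fin (2 * g) → Fin (2 * g) → ℤ)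
    (hw : Q (symHom hn hζ) z w = 1) (t P : ℤ) (hdet : (dif a + t • dif w).det = P ^ 2) (hP : (m : ℤ) ∣ P)
    (hP0 : P ≠ 0) : IndDvd (Q (symHom hn hζ) z a) (n ^ (g - 1) * b₀) := by
  let b : Fin (2 * g) → Fin (2 * g) → ℤ := a + t • w
  have hb : dif b = dif a + t • dif w := by
    ext u v
    simp only [b, dif, Matrix.of_apply, Matrix.add_apply, Pi.add_apply, Pi.smul_apply, Matrix.smul_apply,
      smul_eq_mul]
    ring
  rw [← hb] at hdet
  obtain ⟨e, x, y, hmat, hPd, hd0⟩ := Pool.Agent.Q46.PX.prod_of_det g (by simp) (dif b) (alt_dif _) P hdet hP0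
  obtain ⟨l, hl1, hl2, hl3⟩ : ∃ l : Fin g → ℕ, (∀ i, (n : ℤ) ∣ l i * e i) ∧ ∏ i, l i ∣ n ^ (g - 1) * b₀ ∧
      0 < ∏ i, l i := by
    obtain ⟨l, l1, l2, l3⟩ := Pool.Agent.H47.PD.Comp.exists_mult_n g hg e hd0 m hm (hP.trans hPd)
    refine ⟨fun i => l i * b₀, fun i => ?_, ?_, ?_⟩
    · rw [hmb]
      push_cast
      rw [show (l i : ℤ) * b₀ * e i = (l i * e i) * b₀ by ring]
      exact mul_dvd_mul_right (l1 i) _
    · rw [Finset.prod_mul_distrib, Finset.prod_const, Finset.card_univ, Fintype.card_fin, hmb, mul_pow]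
      have e1 : b₀ ^ g = b₀ ^ (g - 1) * b₀ := by
        rw [← pow_succ, Nat.sub_add_cancel hg]
      rw [e1, mul_assoc]
      exact mul_dvd_mul_right l2 _
    · rw [Finset.prod_mul_distrib]
      exact Nat.mul_pos l3 (Finset.prod_pos fun _ _ => hb₀)
  have hQ1 : Q (symHom hn hζ) z a = Q (symHom hn hζ) z b := by
    simp only [b]
    rw [Q_add, Q_smul, hw, _root_.one_zpow, mul_one]
  have hQ2 : Q (symHom hn hζ) z b = ∏ j, symCl hn hζ (mon z (x j)) (mon z (y j)) ^ e j := by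
    have h1 : Q (symHom hn hζ) z (∑ j, e j • fun u v => x j u * y j v) =
        ∏ j, symCl hn hζ (mon z (x j)) (mon z (y j)) ^ e j := by
      rw [Q_sum]
      refine Finset.prod_congr rfl fun j _ => ?_
      rw [Q_smul, ← s_mon]
      rfl
    rw [← h1]
    refine congr_n (k := k) hn hζ z _ _ fun u v => ?_
    have h2 := congrFun (congrFun hmat u) v
    have h3 : (∑ j, e j • fun u v => x j u * y j v : Fin (2 * g) → Fin (2 * g) → ℤ) u v -
        (∑ j, e j • fun u v => x j u * y j v : Fin (2 * g) → Fin (2 * g) → ℤ) v u = dif b u v := by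
      rw [h2]
      simp only [Matrix.sum_apply, Matrix.smul_apply, wdg, Matrix.of_apply, smul_eq_mul, Finset.sum_apply,
        Pi.smul_apply, ← Finset.sum_sub_distrib]
      refine Finset.sum_congr rfl fun j _ => ?_
      ring
    rw [h3]
    simp [dif]
  rw [hQ1, hQ2]
  have h1 := Pool.Agent.Q46.PX.ind_roots hn g (∏ j, l j) hl3 K ζ hζ (fun j => mon z (x j)) (fun j => mon z (y j)) l e
    rfl hl1
  intro D _ _ _ _ hD
  exact (h1 D hD).trans hl2


include k in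
theorem index_two_b (n : ℕ) (hn : 0 < n) (m b : ℕ) (hm : 0 < m) (hb : 0 < b) (hmb : n = m * b) {ζ : K}
    (hζ : IsPrimitiveRoot ζ n) (g : ℕ)
    (hg : 0 < g) (z : Fin (2 * g) → Kˣ) (w₁ w₂ a : Fin (2 * g) → Fin (2 * g) → ℤ)
    (hw₁ : Q (symHom hn hζ) z w₁ = 1) (hw₂ : Q (symHom hn hζ) z w₂ = 1) (s t : ℤ)
    (hP : (m : ℤ) ∣ P2 g w₁ w₂ a s t) (hP0 : P2 g w₁ w₂ a s t ≠ 0) :
    IndDvd (Q (symHom hn hζ) z a) (n ^ (g - 1) * b) := by
  have h1 : Q (symHom hn hζ) z a = Q (symHom hn hζ) z (a + t • w₂) := by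
    rw [Q_add, Q_smul, hw₂, _root_.one_zpow, mul_one]
  rw [h1]
  refine index_of_pf_nb (k := k) n hn m b hm hb hmb hζ g hg z w₁ (a + t • w₂) hw₁ s _ ?_ hP hP0
  rw [P2_eval]
  exact fp_eval g w₁ (a + t • w₂) s

end

/-- from the set of good primes to almost all periods -/
theorem almost_all_n (S : Set ℕ)
    (hS : Tendsto (fun N : ℕ => (Nat.card {p : ℕ // p ≤ N ∧ p.Prime ∧ p ∈ S} : ℝ) / (Nat.primeCounting N : ℝ)) atTop
      (𝓝 1)) (G : ℕ → ℕ → Prop)
    (hG : ∀ m b : ℕ, 0 < m → 0 < b → (∀ p : ℕ, p.Prime → p ∣ m → p ∈ S) → G (m * b) b) (ε : ℝ) (hε : 0 < ε) :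
    Tendsto (fun N : ℕ => (Nat.card {n : ℕ // n ≤ N ∧ 0 < n ∧ ¬ ∃ b : ℕ, 0 < b ∧ (b : ℝ) ≤ (n : ℝ) ^ ε ∧ G n b} : ℝ) /
      (N : ℝ)) atTop (𝓝 0) := by
  have hB : Tendsto (fun N : ℕ => (Ex.pB (fun p => p ∉ S) N : ℝ) / (Nat.primeCounting N : ℝ)) atTop (𝓝 0) := by
    have h1 := hS.const_sub 1
    rw [sub_self] at h1
    refine h1.congr' ?_
    have ht : Tendsto (fun N : ℕ => (Nat.primeCounting N : ℝ)) atTop atTop :=
      tendsto_natCast_atTop_atTop.comp Nat.tendsto_primeCounting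
    filter_upwards [ht.eventually_gt_atTop 0] with N hN
    have h2 : Nat.card {p : ℕ // p ≤ N ∧ p.Prime ∧ p ∈ S} + Ex.pB (fun p => p ∉ S) N = Nat.primeCounting N := by
      classical
      change Ex.pB (fun p => p ∈ S) N + _ = _
      rw [Ex.pB_eq, Ex.pB_eq, Nat.primeCounting, Nat.primeCounting', Nat.count_eq_card_filter_range,
        ← Finset.card_filter_add_card_filter_not (s := (Finset.range (N + 1)).filter Nat.Prime) (fun p => p ∈ S),
        Finset.filter_filter, Finset.filter_filter]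
      congr 2 <;>
      · ext p
        simp only [Finset.mem_filter]
    have h3 : (Nat.card {p : ℕ // p ≤ N ∧ p.Prime ∧ p ∈ S} : ℝ) + Ex.pB (fun p => p ∉ S) N = Nat.primeCounting N := by
      exact_mod_cast h2
    rw [eq_div_iff hN.ne', sub_mul, div_mul_cancel₀ _ hN.ne', one_mul]
    linarith
  refine squeeze_zero (fun N => by positivity) (fun N => ?_) (Ex.main (fun p => p ∉ S) hB ε hε)
  refine div_le_div_of_nonneg_right ?_ (by positivity)
  rw [Nat.cast_le]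
  have hfin : {n : ℕ | n ≤ N ∧ 0 < n ∧ (n : ℝ) ^ ε < Ex.bp (fun p => p ∉ S) n}.Finite :=
    (Set.finite_Iic N).subset fun n hn => hn.1
  refine Set.ncard_le_ncard (s := {n : ℕ | n ≤ N ∧ 0 < n ∧ ¬ ∃ b : ℕ, 0 < b ∧ (b : ℝ) ≤ (n : ℝ) ^ ε ∧ G n b}) ?_ hfin
  rintro n ⟨h1, h2, h3⟩
  refine ⟨h1, h2, ?_⟩
  by_contra hcon
  rw [not_lt] at hcon
  refine h3 ⟨Ex.bp (fun p => p ∉ S) n, Ex.bp_pos _ _, hcon, ?_⟩
  have h4 := Ex.bp_split (fun p => p ∉ S) n h2.ne'
  have h5 := hG (Ex.bp (fun p => ¬ p ∉ S) n) (Ex.bp (fun p => p ∉ S) n) (Ex.bp_pos _ _) (Ex.bp_pos _ _)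
    fun p hp hpd => not_not.1 (Ex.bp_prime _ n p hp hpd)
  rw [← h4] at h5
  exact h5

end

end Pool.Agent.H47.PT.AllN
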