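import Pool.Agent.H47.PT.Dn
import Pool.Agent.H47.PD.Asm
import Pool.Agent.H47.PD.Comp

/-!
# Project PT: assembly
-/

set_option autoImplicit false

namespace Pool.Agent.H47.PT.Asm

open Matrix Polynomial NumberField Filter Topology Pool.Agent.W401.Cheb
open Pool.Agent.H47.PD Pool.Agent.H47.PD.Asm Pool.Agent.Y109.PI Pool.Agent.Helper929

noncomputable section

/-- Galois group of a Pfaffian polynomial for a general class -/
theorem surj (hPat : S_PAT) (hIRR : S_IRR) (hINJ : S_INJ) (hCYC : S_CYCLE) (hSYM : S_SYMM) (g : ℕ) (hg : 2 ≤ g)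
    (w a : Fin (2 * g) → Fin (2 * g) → ℤ) (hdet : (dif w).det ≠ 0)
    (hn : ∀ n, 2 ≤ n → n ≤ g → ∃ p : ℕ, p.Prime ∧ ¬ (p : ℤ) ∣ (dif w).det ∧
      (fun i : Fin (2 * g) × Fin (2 * g) => ((a i.1 i.2 : ℤ) : ZMod p)) ∈ B g w n p) :
    Irreducible ((fp g w a).map (Int.castRingHom ℚ)) ∧
      ∀ (L : Type) [Field L] [NumberField L] [IsGalois ℚ L], Spl (fp g w a) L →
        Nat.card (Rt (fp g w a) L) = g ∧ Function.Surjective (act (fp g w a) L) := by
  obtain ⟨hdeg, hlead⟩ := fp_deg g w a hdet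
  have hl : ∀ p : ℕ, ¬ (p : ℤ) ∣ (dif w).det → ¬ (p : ℤ) ∣ (fp g w a).leadingCoeff := by
    intro p hp h
    apply hp
    rw [← hlead]
    exact dvd_pow h (by norm_num)
  have hirr : Irreducible ((fp g w a).map (Int.castRingHom ℚ)) := by
    obtain ⟨p, hp, hpd, hB⟩ := hn g hg le_rfl
    haveI : Fact p.Prime := ⟨hp⟩
    exact hIRR _ p (hl p hpd) (pat_irr _ (hl p hpd) hdeg (pat_fp hPat g w a g p hB))
  refine ⟨hirr, ?_⟩
  intro L _ _ _ hL
  have hX : Nat.card (Rt (fp g w a) L) = g := by rw [(hINJ _ L hL).2 hirr, hdeg]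
  haveI : Finite (Rt (fp g w a) L) := (Nat.card_pos_iff.1 (by rw [hX]; omega)).2
  have htop := hSYM (Rt (fp g w a) L) (act (fp g w a) L).range (by rw [hX]; exact hg) (by
    intro n hn2 hn'
    rw [hX] at hn'
    obtain ⟨p, hp, hpd, hB⟩ := hn n hn2 (by omega)
    haveI : Fact p.Prime := ⟨hp⟩
    obtain ⟨σ, h1, h2⟩ := hCYC (fp g w a) L hL p n hn2 (hl p hpd) (pat_fp hPat g w a n p hB)
    exact ⟨_, ⟨σ, rfl⟩, h1, h2⟩)
  exact ⟨hX, MonoidHom.range_eq_top.1 htop⟩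

/-- the vectors modulo `p` for which the two Pfaffian polynomials are squarefree with different numbers of roots -/
def B2 (g : ℕ) (W₁ W₂ : Fin (2 * g) → Fin (2 * g) → ℤ) (p : ℕ) : Set (Fin (2 * g) × Fin (2 * g) → ZMod p) :=
  {a | ∃ (hp : p.Prime), haveI : Fact p.Prime := ⟨hp⟩
    Gd (red p (dif W₁)) (Matrix.of fun u v => a (u, v)) ∧ Gd (red p (dif W₂)) (Matrix.of fun u v => a (u, v)) ∧
      nr (red p (dif W₁)) (Matrix.of fun u v => a (u, v)) ≠ nr (red p (dif W₂)) (Matrix.of fun u v => a (u, v))}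

theorem fp_map_sq (g : ℕ) (w a : Fin (2 * g) → Fin (2 * g) → ℤ) (p : ℕ) :
    ((fp g w a).map (Int.castRingHom (ZMod p))) ^ 2 =
      (((Matrix.of fun u v => ((a u v : ℤ) : ZMod p)) - (Matrix.of fun u v => ((a u v : ℤ) : ZMod p))ᵀ).map C +
        (X : (ZMod p)[X]) • (red p (dif w)).map C).det := by
  rw [← Polynomial.map_pow, fp_sq]
  change Polynomial.mapRingHom (Int.castRingHom (ZMod p)) _ = _
  rw [RingHom.map_det]
  congr 1
  ext1 u v
  simp [dif, red, Matrix.map_apply]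

/-- the number of roots modulo `p` -/
theorem sqf_fp (hSQ : S_SQ) (g : ℕ) (w a : Fin (2 * g) → Fin (2 * g) → ℤ) (p : ℕ) [Fact p.Prime]
    (h : Gd (red p (dif w)) (Matrix.of fun u v => ((a u v : ℤ) : ZMod p))) :
    Squarefree ((fp g w a).map (Int.castRingHom (ZMod p))) ∧
      Nat.card {x : ZMod p // ((fp g w a).map (Int.castRingHom (ZMod p))).eval x = 0} =
        nr (red p (dif w)) (Matrix.of fun u v => ((a u v : ℤ) : ZMod p)) := by
  obtain ⟨c, f, hc, hf, h1⟩ := h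
  have h2 := fp_map_sq g w a p
  constructor
  · exact (hSQ (ZMod p) f _ c hc hf (h2.trans h1)).1
  · unfold nr
    refine Nat.card_congr (Equiv.subtypeEquivRight fun x => ?_)
    have h3 := congrArg (Polynomial.eval x) h2
    rw [eval_pow] at h3
    have h4 : ((((Matrix.of fun u v => ((a u v : ℤ) : ZMod p)) -
        (Matrix.of fun u v => ((a u v : ℤ) : ZMod p))ᵀ).map C +
        (X : (ZMod p)[X]) • (red p (dif w)).map C).det).eval x =
        (((Matrix.of fun u v => ((a u v : ℤ) : ZMod p)) -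
        (Matrix.of fun u v => ((a u v : ℤ) : ZMod p))ᵀ) + x • red p (dif w)).det := by
      change Polynomial.evalRingHom x _ = _
      rw [RingHom.map_det]
      congr 1
      ext1 u v
      simp [Matrix.map_apply]
      ring
    rw [← h4, ← h3]
    exact (pow_eq_zero_iff two_ne_zero).symm

theorem al_red (p : ℕ) [Fact p.Prime] {I : Type} (w : I → I → ℤ) : Al (red p (dif w)) := by
  constructor
  · intro u
    simp [red, dif]
  · intro u v
    simp [red, dif]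

theorem card_B2 (hPAIR : S_PAIR) (hIND : S_IND) (g : ℕ) (hg : 2 ≤ g)
    (W₁ W₂ : Fin (2 * g) → Fin (2 * g) → ℤ) (h₁ : (dif W₁).det ≠ 0) (h₂ : (dif W₂).det ≠ 0)
    (hind : ∀ x y : ℤ, x • dif W₁ + y • dif W₂ = 0 → x = 0 ∧ y = 0) :
    ∃ c : ℝ, 0 < c ∧ ∃ p₀ : ℕ, ∀ p : ℕ, p.Prime → p₀ ≤ p →
      c * (p : ℝ) ^ Fintype.card (Fin (2 * g) × Fin (2 * g)) ≤ Nat.card (B2 g W₁ W₂ p) := by
  obtain ⟨c, hc, q₀, h⟩ := hPAIR g hg
  obtain ⟨N, hN, hN'⟩ := hIND (Fin (2 * g)) (dif W₁) (dif W₂) hind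
  refine ⟨c, hc, q₀ + N + (dif W₁).det.natAbs + (dif W₂).det.natAbs + 1, fun p hp hpp => ?_⟩
  haveI : Fact p.Prime := ⟨hp⟩
  haveI : NeZero p := ⟨hp.ne_zero⟩
  have hcard : Fintype.card (ZMod p) = p := ZMod.card p
  have hd : ∀ d : ℤ, d ≠ 0 → d.natAbs < p → ¬ (p : ℤ) ∣ d := by
    intro d hd0 hlt hdvd
    have := Nat.le_of_dvd (Int.natAbs_pos.2 hd0) (Int.natCast_dvd.1 hdvd)
    omega
  have hpN : ¬ p ∣ N := by
    intro hdvd
    have := Nat.le_of_dvd hN hdvd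
    omega
  have h3 := h (ZMod p) (Fin (2 * g)) (red p (dif W₁)) (red p (dif W₂)) (by rw [hcard]; omega) (by simp)
    (al_red p W₁) (al_red p W₂) (Pool.Agent.H47.PF.Lk.isUnit_det W₁ (hd _ h₁ (by omega)))
    (Pool.Agent.H47.PF.Lk.isUnit_det W₂ (hd _ h₂ (by omega))) (hN' p hp hpN)
  have e1 : (Nat.card (Matrix (Fin (2 * g)) (Fin (2 * g)) (ZMod p)) : ℝ) =
      (p : ℝ) ^ Fintype.card (Fin (2 * g) × Fin (2 * g)) := by
    have : Nat.card (Matrix (Fin (2 * g)) (Fin (2 * g)) (ZMod p)) =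
        Nat.card (Fin (2 * g) × Fin (2 * g) → ZMod p) :=
      Nat.card_congr (Equiv.curry (Fin (2 * g)) (Fin (2 * g)) (ZMod p)).symm
    rw [this, Nat.card_fun, Nat.card_eq_fintype_card, Nat.card_eq_fintype_card, hcard]
    push_cast
    rfl
  have e2 : Nat.card {w' : Matrix (Fin (2 * g)) (Fin (2 * g)) (ZMod p) //
      Gd (red p (dif W₁)) w' ∧ Gd (red p (dif W₂)) w' ∧ nr (red p (dif W₁)) w' ≠ nr (red p (dif W₂)) w'} =
      Nat.card (B2 g W₁ W₂ p) := by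
    refine Nat.card_congr (Equiv.subtypeEquiv (Equiv.curry (Fin (2 * g)) (Fin (2 * g)) (ZMod p)).symm fun w' => ?_)
    constructor
    · intro h
      exact ⟨hp, h⟩
    · rintro ⟨_, h⟩
      exact h
  rw [e1, e2] at h3
  exact h3

/-- the union of the good primes of several Pfaffian polynomials -/
def HiR (g : ℕ) {r : ℕ} (W : Fin r → Fin (2 * g) → Fin (2 * g) → ℤ) (a : Fin (2 * g) → Fin (2 * g) → ℤ) (p : ℕ) :
    Prop := ∃ i, Hi g (W i) a p

theorem generic (hPat : S_PAT) (hIRR : S_IRR) (hEX : S_EX) (hINJ : S_INJ) (hCYC : S_CYCLE) (hSYM : S_SYMM)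
    (hHENS : S_HENS) (hFROB : S_FROBEX) (hLIFT : S_LIFT) (hFFIX : S_FFIX) (hFIXG : S_FIXG) (hEXR : S_EXR)
    (hGRP : S_GRP) (hSQ : S_SQ) (hCheb : Chebotarev) (hTor : TaskTor) (g : ℕ) (hg : 2 ≤ g) {r : ℕ} (hr : 0 < r)
    (W : Fin r → Fin (2 * g) → Fin (2 * g) → ℤ) (a : Fin (2 * g) → Fin (2 * g) → ℤ)
    (hdet : ∀ i, (dif (W i)).det ≠ 0)
    (hn : ∀ i, ∀ n, 2 ≤ n → n ≤ g → ∃ p : ℕ, p.Prime ∧ ¬ (p : ℤ) ∣ (dif (W i)).det ∧
      (fun i : Fin (2 * g) × Fin (2 * g) => ((a i.1 i.2 : ℤ) : ZMod p)) ∈ B g (W i) n p)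
    (hp2 : ∀ i j, i ≠ j → ∃ p : ℕ, p.Prime ∧ ¬ (p : ℤ) ∣ (dif (W i)).det ∧ ¬ (p : ℤ) ∣ (dif (W j)).det ∧
      (fun i : Fin (2 * g) × Fin (2 * g) => ((a i.1 i.2 : ℤ) : ZMod p)) ∈ B2 g (W i) (W j) p) :
    LowDens (HiR g W a) (1 - 1 / r) := by
  have hf0 : ∀ i, fp g (W i) a ≠ 0 := by
    intro i h0
    have := (fp_deg g (W i) a (hdet i)).1
    rw [h0, natDegree_zero] at this
    omega
  have hl : ∀ i, ∀ p : ℕ, ¬ (p : ℤ) ∣ (dif (W i)).det → ¬ (p : ℤ) ∣ (fp g (W i) a).leadingCoeff := by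
    intro i p hp h
    apply hp
    rw [← (fp_deg g (W i) a (hdet i)).2]
    exact dvd_pow h (by norm_num)
  have hS := fun i => surj hPat hIRR hINJ hCYC hSYM g hg (W i) a (hdet i) (hn i)
  obtain ⟨L, _, _, _, hL⟩ := hEXR r (fun i => fp g (W i) a) hf0
  have hX : ∀ i, Nat.card (Rt (fp g (W i) a) L) = g ∧ Function.Surjective (act (fp g (W i) a) L) := by
    intro i
    obtain ⟨L₀, _, _, _, hL₀⟩ := hEX (fp g (W i) a)
    obtain ⟨h1, h2⟩ := (hS i).2 L₀ hL₀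
    obtain ⟨e, he⟩ := hLIFT (fp g (W i) a) L₀ L (hf0 i) hL₀ (hL i)
    refine ⟨by rw [← Nat.card_congr e, h1], ?_⟩
    intro π
    obtain ⟨τ, hτ⟩ := h2 ((e.trans π).trans e.symm)
    obtain ⟨σ, hσ⟩ := he τ
    refine ⟨σ, Equiv.ext fun x => ?_⟩
    have := hσ (e.symm x)
    rw [Equiv.apply_symm_apply, hτ] at this
    rw [this]
    simp
  haveI : ∀ i, Finite (Rt (fp g (W i) a) L) := fun i => (Nat.card_pos_iff.1 (by rw [(hX i).1]; omega)).2
  have hG := hGRP Gal(L/ℚ) r g (fun i => Rt (fp g (W i) a) L) (fun i => act (fp g (W i) a) L) hg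
    (fun i => (hX i).1) (fun i => (hX i).2) (by
      intro i j hij
      obtain ⟨p, hp, hpi, hpj, hB⟩ := hp2 i j hij
      haveI : Fact p.Prime := ⟨hp⟩
      obtain ⟨_, hB1, hB2, hB3⟩ := hB
      obtain ⟨s1, c1⟩ := sqf_fp hSQ g (W i) a p hB1
      obtain ⟨s2, c2⟩ := sqf_fp hSQ g (W j) a p hB2
      obtain ⟨φ, σ, hσ⟩ := hFROB L p
      refine ⟨σ, ?_⟩
      rw [hFFIX _ L (hL i) p (hl i p hpi) s1 φ σ hσ, hFFIX _ L (hL j) p (hl j p hpj) s2 φ σ hσ, c1, c2]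
      exact hB3)
  -- exceptional primes
  have h1 := fun i => hFIXG (fp g (W i) a) L (hL i) (hS i).1
  choose D hD hfix using h1
  have h2 := fun i => hHENS (fp g (W i) a) (fp g (W i) a) (hS i).1 (hf0 i)
  choose D' hD' hH using h2
  have hden := Dn.dens hCheb hTor L (fun σ => ∃ i, ∃ x : Rt (fp g (W i) a) L, act (fp g (W i) a) L σ x = x)
    (fun p => ∃ i, ∃ x : ℤ, (p : ℤ) ∣ (fp g (W i) a).eval x) (∏ i, D i) (Finset.prod_pos fun i _ => hD i) (by
      intro p _ hpD φ σ hσ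
      refine exists_congr fun i => ?_
      exact hfix i p (fun h => hpD (h.trans (Finset.dvd_prod_of_mem _ (Finset.mem_univ i)))) φ σ hσ)
  refine lowDens_of _ _ (1 - 1 / r) _ (∏ i, D' i) (Finset.prod_pos fun i _ => hD' i) ?_ hden ?_
  · have hGc : (0 : ℝ) < Nat.card Gal(L/ℚ) := by exact_mod_cast Nat.card_pos
    have hr' : (0 : ℝ) < r := by exact_mod_cast hr
    have e1 : Nat.card {σ : Gal(L/ℚ) // ∃ i, ∃ x : Rt (fp g (W i) a) L, act (fp g (W i) a) L σ x = x} +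
        Nat.card {σ : Gal(L/ℚ) // ∀ i, ∀ x : Rt (fp g (W i) a) L, act (fp g (W i) a) L σ x ≠ x} =
        Nat.card Gal(L/ℚ) := by
      classical
      have := Nat.card_congr (Equiv.sumCompl fun σ : Gal(L/ℚ) =>
        ∃ i, ∃ x : Rt (fp g (W i) a) L, act (fp g (W i) a) L σ x = x)
      rw [Nat.card_sum] at this
      rw [← this]
      congr 1
      refine Nat.card_congr (Equiv.subtypeEquivRight fun σ => ?_)
      push Not
      exact Iff.rfl
    rw [le_div_iff₀ hGc]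
    have e2 : ((r : ℝ)) * Nat.card {σ : Gal(L/ℚ) // ∀ i, ∀ x : Rt (fp g (W i) a) L, act (fp g (W i) a) L σ x ≠ x} ≤
        Nat.card Gal(L/ℚ) := by exact_mod_cast hG
    have e3 : (Nat.card {σ : Gal(L/ℚ) // ∃ i, ∃ x : Rt (fp g (W i) a) L, act (fp g (W i) a) L σ x = x} : ℝ) +
        Nat.card {σ : Gal(L/ℚ) // ∀ i, ∀ x : Rt (fp g (W i) a) L, act (fp g (W i) a) L σ x ≠ x} =
        Nat.card Gal(L/ℚ) := by exact_mod_cast e1
    have e4 : (Nat.card {σ : Gal(L/ℚ) // ∀ i, ∀ x : Rt (fp g (W i) a) L, act (fp g (W i) a) L σ x ≠ x} : ℝ) ≤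
        Nat.card Gal(L/ℚ) / r := by
      rw [le_div_iff₀ hr']
      linarith
    have e5 : (1 - 1 / (r : ℝ)) * Nat.card Gal(L/ℚ) = Nat.card Gal(L/ℚ) - Nat.card Gal(L/ℚ) / r := by ring
    rw [e5]
    linarith
  · rintro p hp hpD ⟨i, hroot⟩
    refine ⟨i, fun m => ?_⟩
    obtain ⟨x, hx, _⟩ := hH i p hp (fun h => hpD (h.trans (Finset.dvd_prod_of_mem _ (Finset.mem_univ i)))) hroot m
    exact ⟨x, hx⟩

/-- for almost all classes -/
theorem almost_all (hCh : S_CHARP) (hTyp : S_TYP) (hBOX : S_BOX) (hPat : S_PAT) (hIRR : S_IRR) (hEX : S_EX)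
    (hINJ : S_INJ) (hCYC : S_CYCLE) (hSYM : S_SYMM)
    (hHENS : S_HENS) (hFROB : S_FROBEX) (hLIFT : S_LIFT) (hFFIX : S_FFIX) (hFIXG : S_FIXG) (hEXR : S_EXR)
    (hGRP : S_GRP) (hSQ : S_SQ) (hPAIR : S_PAIR) (hIND : S_IND) (hCheb : Chebotarev) (hTor : TaskTor)
    (g : ℕ) (hg : 2 ≤ g) {r : ℕ} (hr : 0 < r) (W : Fin r → Fin (2 * g) → Fin (2 * g) → ℤ)
    (hdet : ∀ i, (dif (W i)).det ≠ 0)
    (hind : ∀ i j, i ≠ j → ∀ x y : ℤ, x • dif (W i) + y • dif (W j) = 0 → x = 0 ∧ y = 0) :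
    Tendsto (fun H : ℕ => (Nat.card {a : Fin (2 * g) × Fin (2 * g) → Fin H //
      ¬ LowDens (HiR g W fun u v => ((a (u, v) : ℕ) : ℤ)) (1 - 1 / r)} : ℝ) / (H : ℝ) ^ ((2 * g) ^ 2))
      atTop (𝓝 0) := by
  -- all the families of sets
  let T : Type := (Fin r × Fin (g + 1)) ⊕ (Fin r × Fin r)
  let S : T → ∀ p : ℕ, Set (Fin (2 * g) × Fin (2 * g) → ZMod p) := fun t => match t with
    | Sum.inl q => fun p => if 2 ≤ (q.2 : ℕ) then B g (W q.1) q.2 p else Set.univ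
    | Sum.inr q => fun p => if q.1 = q.2 then Set.univ else B2 g (W q.1) (W q.2) p
  have huniv : ∃ c : ℝ, 0 < c ∧ ∃ p₀ : ℕ, ∀ p : ℕ, p.Prime → p₀ ≤ p →
      c * (p : ℝ) ^ Fintype.card (Fin (2 * g) × Fin (2 * g)) ≤
        Nat.card (Set.univ : Set (Fin (2 * g) × Fin (2 * g) → ZMod p)) := by
    refine ⟨1, one_pos, 0, fun p hp _ => ?_⟩
    haveI : NeZero p := ⟨hp.ne_zero⟩
    rw [one_mul, Nat.card_univ, Nat.card_fun, Nat.card_eq_fintype_card, Nat.card_eq_fintype_card, ZMod.card]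
    push_cast
    exact le_rfl
  have hc : ∀ t : T, ∃ c : ℝ, 0 < c ∧ ∃ p₀ : ℕ, ∀ p : ℕ, p.Prime → p₀ ≤ p →
      c * (p : ℝ) ^ Fintype.card (Fin (2 * g) × Fin (2 * g)) ≤ Nat.card (S t p) := by
    rintro (q | q)
    · by_cases h2 : 2 ≤ (q.2 : ℕ)
      · have := card_B hCh hTyp g (by omega) (W q.1) (hdet q.1) q.2 h2 (by omega)
        simpa only [S, if_pos h2] using this
      · simpa only [S, if_neg h2] using huniv
    · by_cases h2 : q.1 = q.2
      · simpa only [S, if_pos h2] using huniv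
      · have := card_B2 hPAIR hIND g hg (W q.1) (W q.2) (hdet q.1) (hdet q.2) (hind _ _ h2)
        simpa only [S, if_neg h2] using this
  choose c hc0 p₀ hp₀ using hc
  set q : ℕ := (∑ t, p₀ t) + (∑ i, ((dif (W i)).det.natAbs + 1)) with hq
  have hqn : ∀ t, p₀ t ≤ q := by
    intro t
    have := Finset.single_le_sum (f := p₀) (fun i _ => Nat.zero_le _) (Finset.mem_univ t)
    omega
  have hqd : ∀ p, q ≤ p → ∀ i, ¬ (p : ℤ) ∣ (dif (W i)).det := by
    intro p hp i h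
    have h3 := Nat.le_of_dvd (Int.natAbs_pos.2 (hdet i)) (Int.natCast_dvd.1 h)
    have := Finset.single_le_sum (f := fun i => (dif (W i)).det.natAbs + 1) (fun i _ => Nat.zero_le _)
      (Finset.mem_univ i)
    omega
  have hbox := fun t : T => hBOX (Fin (2 * g) × Fin (2 * g)) (S t) (c t) q (hc0 t)
      (fun p hp hpq => hp₀ t p hp ((hqn t).trans hpq))
  have e1 : Fintype.card (Fin (2 * g) × Fin (2 * g)) = (2 * g) ^ 2 := by
    rw [Fintype.card_prod, Fintype.card_fin, sq]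
  rw [e1] at hbox
  have hsum : Tendsto (fun H : ℕ => ∑ t : T,
      (Nat.card {a : Fin (2 * g) × Fin (2 * g) → Fin H //
        ∀ p : ℕ, p.Prime → q ≤ p → (fun i => ((a i : ℕ) : ZMod p)) ∉ S t p} : ℝ) / (H : ℝ) ^ ((2 * g) ^ 2))
      atTop (𝓝 0) := by
    have := tendsto_finset_sum (Finset.univ : Finset T) fun t _ => hbox t
    simpa using this
  refine squeeze_zero (fun H => by positivity) (fun H => ?_) hsum
  rw [← Finset.sum_div]
  refine div_le_div_of_nonneg_right ?_ (by positivity)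
  have hsub : {a : Fin (2 * g) × Fin (2 * g) → Fin H | ¬ LowDens (HiR g W fun u v => ((a (u, v) : ℕ) : ℤ))
        (1 - 1 / r)} ⊆
      ⋃ t ∈ (Finset.univ : Finset T), {a : Fin (2 * g) × Fin (2 * g) → Fin H |
        ∀ p : ℕ, p.Prime → q ≤ p → (fun i => ((a i : ℕ) : ZMod p)) ∉ S t p} := by
    intro a ha
    by_contra hcon
    apply ha
    simp only [Set.mem_iUnion, not_exists] at hcon
    have h3 : ∀ t : T, ∃ p : ℕ, p.Prime ∧ q ≤ p ∧
        (fun i : Fin (2 * g) × Fin (2 * g) => ((((a (i.1, i.2) : ℕ) : ℤ)) : ZMod p)) ∈ S t p := by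
      intro t
      have h3 := hcon t (Finset.mem_univ t)
      simp only [Set.mem_setOf_eq, not_forall, not_not] at h3
      obtain ⟨p, hp, hpq, h4⟩ := h3
      refine ⟨p, hp, hpq, ?_⟩
      convert h4 using 1
      ext i
      simp
    refine generic hPat hIRR hEX hINJ hCYC hSYM hHENS hFROB hLIFT hFFIX hFIXG hEXR hGRP hSQ hCheb hTor g hg hr W _
      hdet ?_ ?_
    · intro i n h1 h2
      obtain ⟨p, hp, hpq, h4⟩ := h3 (Sum.inl (i, ⟨n, by omega⟩))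
      simp only [S, if_pos h1] at h4
      exact ⟨p, hp, hqd p hpq i, h4⟩
    · intro i j hij
      obtain ⟨p, hp, hpq, h4⟩ := h3 (Sum.inr (i, j))
      simp only [S, if_neg hij] at h4
      exact ⟨p, hp, hqd p hpq i, hqd p hpq j, h4⟩
  have h5 : Nat.card {a : Fin (2 * g) × Fin (2 * g) → Fin H // ¬ LowDens (HiR g W fun u v => ((a (u, v) : ℕ) : ℤ))
        (1 - 1 / r)} ≤
      ∑ t : T, Nat.card {a : Fin (2 * g) × Fin (2 * g) → Fin H //
        ∀ p : ℕ, p.Prime → q ≤ p → (fun i => ((a i : ℕ) : ZMod p)) ∉ S t p} := by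
    refine (Set.ncard_le_ncard hsub (Set.toFinite _)).trans ?_
    exact Finset.set_ncard_biUnion_le _ _
  exact_mod_cast h5

end

end Pool.Agent.H47.PT.Asm
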