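import Pool.Agent.H47.PT.Asm

/-!
# Project PT: composite periods, two relations
-/

set_option autoImplicit false

namespace Pool.Agent.H47.PT.Comp

open Matrix Polynomial Pool.Agent.H47.PF Pool.Agent.H47.PF.Cnt Pool.Agent.H47.PF.Lk Pool.Agent.H47.PF.Fx
open Pool.Agent.H47.PD.Asm
open Pool.Agent.Helper346.Bra Pool.Agent.Helper18.Br Pool.Agent.H552R3.SymBr Pool.Agent.H552R3.SymPred
  Pool.Agent.H552R3.Tsen Pool.Agent.Y109.PI Pool.Agent.Q128.PI Pool.Agent.Helper929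

noncomputable section

universe u

/-- the Pfaffian of `A + s E_1 + t E_2` -/
def P2 (g : ℕ) (w₁ w₂ a : Fin (2 * g) → Fin (2 * g) → ℤ) (s t : ℤ) : ℤ :=
  pf (2 * g) (dif a + s • dif w₁ + t • dif w₂)

theorem dif_add (g : ℕ) (a b : Fin (2 * g) → Fin (2 * g) → ℤ) (t : ℤ) : dif (a + t • b) = dif a + t • dif b := by
  ext u v
  simp only [dif, Matrix.of_apply, Matrix.add_apply, Pi.add_apply, Pi.smul_apply, Matrix.smul_apply,
    smul_eq_mul]
  ring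

theorem P2_eval (g : ℕ) (w₁ w₂ a : Fin (2 * g) → Fin (2 * g) → ℤ) (s t : ℤ) :
    P2 g w₁ w₂ a s t = (fp g w₁ (a + t • w₂)).eval s := by
  rw [fp, pf_pencil_eval, P2, dif_add]
  congr 1
  abel

theorem P2_line (g : ℕ) (w₁ w₂ a : Fin (2 * g) → Fin (2 * g) → ℤ) (y x : ℤ) :
    P2 g w₁ w₂ a x (x * y) = (fp g (w₁ + y • w₂) a).eval x := by
  rw [fp, pf_pencil_eval, P2, dif_add]
  congr 1
  rw [smul_add, smul_smul, add_assoc]

theorem P2_congr (g : ℕ) (w₁ w₂ a : Fin (2 * g) → Fin (2 * g) → ℤ) (m : ℕ) (s t s' t' : ℤ)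
    (hs : (m : ℤ) ∣ s - s') (ht : (m : ℤ) ∣ t - t') (h : (m : ℤ) ∣ P2 g w₁ w₂ a s' t') :
    (m : ℤ) ∣ P2 g w₁ w₂ a s t := by
  rw [← ZMod.intCast_zmod_eq_zero_iff_dvd] at h ⊢
  rw [← ZMod.intCast_zmod_eq_zero_iff_dvd, Int.cast_sub, sub_eq_zero] at hs ht
  rw [← h]
  have e : ∀ x : ℤ, (x : ZMod m) = Int.castRingHom (ZMod m) x := fun x => rfl
  rw [e, e, P2, P2, pf_map, pf_map]
  congr 1
  ext u v
  simp only [Matrix.map_apply, Matrix.add_apply, Matrix.smul_apply, smul_eq_mul, map_add, map_mul, eq_intCast, hs, ht]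

theorem exists_st (g : ℕ) (hg : 0 < g) (w₁ w₂ a : Fin (2 * g) → Fin (2 * g) → ℤ) (hdet : (dif w₁).det ≠ 0)
    (n : ℕ) (hn : 0 < n)
    (h : ∀ p : ℕ, p.Prime → p ∣ n → ∀ m : ℕ, ∃ s t : ℤ, (p : ℤ) ^ m ∣ P2 g w₁ w₂ a s t) :
    ∃ s t : ℤ, (n : ℤ) ∣ P2 g w₁ w₂ a s t ∧ P2 g w₁ w₂ a s t ≠ 0 := by
  have h1 : ∀ l : ℕ, 0 < l → l ∣ n → ∃ s t : ℤ, (l : ℤ) ∣ P2 g w₁ w₂ a s t := by
    intro l
    induction l using Nat.recOnPosPrimePosCoprime with
    | prime_pow p k hp hk =>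
      intro _ hl
      obtain ⟨s, t, ht⟩ := h p hp ((dvd_pow_self p (by omega)).trans hl) k
      exact ⟨s, t, by exact_mod_cast ht⟩
    | zero => intro h; exact absurd h (lt_irrefl 0)
    | one => intro _ _; exact ⟨0, 0, by simp⟩
    | coprime b c hb hc hbc ihb ihc =>
      intro _ hl
      obtain ⟨s, t, hs⟩ := ihb (by omega) ((Dvd.intro c rfl).trans hl)
      obtain ⟨s', t', ht⟩ := ihc (by omega) ((Dvd.intro_left b rfl).trans hl)
      obtain ⟨u, v, huv⟩ := (Nat.isCoprime_iff_coprime.2 hbc : IsCoprime (b : ℤ) (c : ℤ))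
      refine ⟨s * (v * c) + s' * (u * b), t * (v * c) + t' * (u * b), ?_⟩
      have e1 : (b : ℤ) ∣ P2 g w₁ w₂ a (s * (v * c) + s' * (u * b)) (t * (v * c) + t' * (u * b)) :=
        P2_congr g w₁ w₂ a b _ _ s t ⟨u * (s' - s), by linear_combination s * huv⟩
          ⟨u * (t' - t), by linear_combination t * huv⟩ hs
      have e2 : (c : ℤ) ∣ P2 g w₁ w₂ a (s * (v * c) + s' * (u * b)) (t * (v * c) + t' * (u * b)) :=
        P2_congr g w₁ w₂ a c _ _ s' t' ⟨v * (s - s'), by linear_combination s' * huv⟩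
          ⟨v * (t - t'), by linear_combination t' * huv⟩ ht
      have := (Nat.isCoprime_iff_coprime.2 hbc).mul_dvd e1 e2
      exact_mod_cast this
  obtain ⟨s, t, ht⟩ := h1 n hn dvd_rfl
  by_contra hcon
  push Not at hcon
  have hf0 : fp g w₁ (a + t • w₂) ≠ 0 := by
    intro h0
    have := (fp_deg g w₁ (a + t • w₂) hdet).1
    rw [h0, natDegree_zero] at this
    omega
  have hinf : ∀ u : ℤ, (fp g w₁ (a + t • w₂)).eval (s + n * u) = 0 := by
    intro u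
    rw [← P2_eval]
    refine hcon _ _ ?_
    exact P2_congr g w₁ w₂ a n _ _ s t ⟨u, by ring⟩ ⟨0, by ring⟩ ht
  refine hf0 (Polynomial.eq_zero_of_infinite_isRoot _ ?_)
  refine Set.Infinite.mono (s := Set.range fun u : ℤ => s + n * u) ?_ (Set.infinite_range_of_injective ?_)
  · rintro _ ⟨u, rfl⟩
    exact hinf u
  · intro u u' hs
    simpa [hn.ne'] using hs

section

variable {k K : Type u} [Field k] [IsAlgClosed k] [Field K] [Algebra k K]

include k in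
theorem index_two (n : ℕ) (hn : 0 < n) {ζ : K} (hζ : IsPrimitiveRoot ζ n) (g : ℕ)
    (hg : 0 < g) (z : Fin (2 * g) → Kˣ) (w₁ w₂ a : Fin (2 * g) → Fin (2 * g) → ℤ)
    (hw₁ : Q (symHom hn hζ) z w₁ = 1) (hw₂ : Q (symHom hn hζ) z w₂ = 1) (s t : ℤ)
    (hP : (n : ℤ) ∣ P2 g w₁ w₂ a s t) (hP0 : P2 g w₁ w₂ a s t ≠ 0) :
    IndDvd (Q (symHom hn hζ) z a) (n ^ (g - 1)) := by
  have h1 : Q (symHom hn hζ) z a = Q (symHom hn hζ) z (a + t • w₂) := by
    rw [Q_add, Q_smul, hw₂, _root_.one_zpow, mul_one]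
  rw [h1]
  refine Pool.Agent.H47.PD.Comp.index_of_pf_n (k := k) n hn hζ g hg z w₁ (a + t • w₂) hw₁ s _ ?_ hP hP0
  rw [P2_eval]
  exact fp_eval g w₁ (a + t • w₂) s

end

end

end Pool.Agent.H47.PT.Comp
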