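import Pool.Agent.H47.PT.Stm
import Pool.Agent.H47.L.R_seed8.W401.Cheb.Grp
import Pool.Agent.H47.L.R_seed8.W401.Cheb.Mean0

/-!
# Project PT: density of a set of primes given by a condition on the Frobenius elements
-/

set_option autoImplicit false

namespace Pool.Agent.H47.PT.Dn

open Matrix Polynomial NumberField Filter Topology Pool.Agent.W401.Cheb

open scoped Classical in
theorem key (L : Type) [Field L] [NumberField L] [IsGalois ℚ L] (p : ℕ) [Fact p.Prime]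
    (ht : TorAt L p) (P : Gal(L/ℚ) → Prop) (R : Prop)
    (hfix : ∀ (φ : 𝓞 L →+* AlgebraicClosure (ZMod p)) (σ : Gal(L/ℚ)), HasFrob p φ σ → (P σ ↔ R)) :
    ∑ σ : Gal(L/ℚ), (if P σ then (1 : ℝ) else 0) * (xp L σ p : ℝ) =
      (Nat.card Gal(L/ℚ) : ℝ) * (if R then 1 else 0) := by
  have hp : p.Prime := Fact.out
  have hxp : ∀ σ : Gal(L/ℚ), xp L σ p ≠ 0 → ∃ φ : 𝓞 L →+* AlgebraicClosure (ZMod p), HasFrob p φ σ := by
    intro σ h0
    unfold xp at h0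
    rw [dif_pos hp] at h0
    have h1 := (Nat.card_pos_iff.1 (Nat.pos_of_ne_zero h0)).1
    exact ⟨h1.some.1, h1.some.2⟩
  by_cases hr : R
  · rw [if_pos hr, mul_one, ← sum_xp ht, Nat.cast_sum]
    refine Finset.sum_congr rfl fun σ _ => ?_
    by_cases h0 : xp L σ p = 0
    · rw [h0, Nat.cast_zero, mul_zero]
    · obtain ⟨φ, hφ⟩ := hxp σ h0
      rw [if_pos ((hfix φ σ hφ).2 hr), one_mul]
  · rw [if_neg hr, mul_zero]
    refine Finset.sum_eq_zero fun σ _ => ?_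
    by_cases h0 : xp L σ p = 0
    · rw [h0, Nat.cast_zero, mul_zero]
    · obtain ⟨φ, hφ⟩ := hxp σ h0
      rw [if_neg fun h1 => hr ((hfix φ σ hφ).1 h1), zero_mul]

theorem dens (hCheb : Chebotarev) (hTor : TaskTor) (L : Type) [Field L] [NumberField L] [IsGalois ℚ L]
    (P : Gal(L/ℚ) → Prop) (R : ℕ → Prop) (D₁ : ℕ) (hD₁ : 0 < D₁)
    (h1 : ∀ (p : ℕ) [Fact p.Prime], ¬ p ∣ D₁ →
      ∀ (φ : 𝓞 L →+* AlgebraicClosure (ZMod p)) (σ : Gal(L/ℚ)), HasFrob p φ σ → (P σ ↔ R p)) :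
    Tendsto (fun N : ℕ => (Nat.card {p : ℕ // p ≤ N ∧ p.Prime ∧ R p} : ℝ) / (Nat.primeCounting N : ℝ)) atTop
      (𝓝 ((Nat.card {σ : Gal(L/ℚ) // P σ} : ℝ) / Nat.card Gal(L/ℚ))) := by
  classical
  obtain ⟨D₂, hD₂, h2⟩ := hTor L
  have hG : (Nat.card Gal(L/ℚ) : ℝ) ≠ 0 := by exact_mod_cast (Nat.card_pos (α := Gal(L/ℚ))).ne'
  have hm : ∀ σ : Gal(L/ℚ), Tendsto (M fun p => (xp L σ p : ℝ)) atTop (𝓝 1) := fun σ => hCheb L σ
  have h3 : Tendsto (M fun p => ∑ σ : Gal(L/ℚ), (if P σ then (1 : ℝ) else 0) * (xp L σ p : ℝ)) atTop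
      (𝓝 (∑ σ : Gal(L/ℚ), (if P σ then (1 : ℝ) else 0) * 1)) := by
    have e : (M fun p => ∑ σ : Gal(L/ℚ), (if P σ then (1 : ℝ) else 0) * (xp L σ p : ℝ)) = fun N =>
        ∑ σ : Gal(L/ℚ), (if P σ then (1 : ℝ) else 0) * M (fun p => (xp L σ p : ℝ)) N := by
      funext N
      rw [M_sum Finset.univ (fun σ : Gal(L/ℚ) => fun p => (if P σ then (1 : ℝ) else 0) * (xp L σ p : ℝ)) N]
      exact Finset.sum_congr rfl fun σ _ => M_smul _ _ N
    rw [e]
    exact tendsto_finset_sum _ fun σ _ => (hm σ).const_mul _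
  have e1 : (∑ σ : Gal(L/ℚ), (if P σ then (1 : ℝ) else 0) * 1) = Nat.card {σ : Gal(L/ℚ) // P σ} := by
    simp only [mul_one]
    rw [Finset.sum_ite, Finset.sum_const_zero, add_zero, Finset.sum_const, nsmul_eq_mul, mul_one,
      Nat.card_eq_fintype_card, Fintype.card_subtype]
  rw [e1] at h3
  have h4 := M_congr_tendsto (a := fun p => ∑ σ : Gal(L/ℚ), (if P σ then (1 : ℝ) else 0) * (xp L σ p : ℝ))
    (b := fun p => (Nat.card Gal(L/ℚ) : ℝ) * (if R p then 1 else 0))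
    (D := D₁ * D₂) (Nat.mul_pos hD₁ hD₂) (by
      intro p hp hpD
      haveI : Fact p.Prime := ⟨hp⟩
      exact key L p (h2 p fun h => hpD (h.mul_left _)) P (R p) (h1 p fun h => hpD (h.mul_right _)))
  have h5 := h3.sub h4
  simp only [sub_sub_cancel, sub_zero] at h5
  have h6 := h5.const_mul ((Nat.card Gal(L/ℚ) : ℝ)⁻¹)
  rw [inv_mul_eq_div] at h6
  refine h6.congr fun N => ?_
  rw [M_smul, inv_mul_cancel_left₀ hG]
  unfold M
  congr 1
  rw [Finset.sum_ite, Finset.sum_const_zero, add_zero, Finset.sum_const, nsmul_eq_mul, mul_one]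
  rw [← Nat.card_eq_finsetCard]
  congr 1
  refine Nat.card_congr (Equiv.subtypeEquivRight fun p => ?_)
  rw [Finset.mem_filter, mem_pr, and_assoc]

end Pool.Agent.H47.PT.Dn
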