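import Pool.Agent.H47.PD.Fin
import Pool.Agent.H47.PT.Comp
import Pool.Agent.H47.PT.T.LIFT
import Pool.Agent.H47.PT.T.FFIX
import Pool.Agent.H47.PT.T.FIXG
import Pool.Agent.H47.PT.T.EXR
import Pool.Agent.H47.PT.T.GRP
import Pool.Agent.H47.PT.T.SQ
import Pool.Agent.H47.PT.T.YS
import Pool.Agent.H47.PT.T.IND
import Pool.Agent.H47.PT.T.SQF
import Pool.Agent.H47.PT.T.NSQ
import Pool.Agent.H47.PT.T.KN
import Pool.Agent.H47.PT.T.BAD
import Pool.Agent.H47.PT.T.MOM1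
import Pool.Agent.H47.PT.T.NRG
import Pool.Agent.H47.PT.T.MOM2
import Pool.Agent.H47.PT.T.PAIR

/-!
# Project PT: all parts
-/

set_option autoImplicit false

namespace Pool.Agent.H47.PT.Fin

open Pool.Agent.H47.PD Pool.Agent.H47.PD.Asm Pool.Agent.H47.PT Pool.Agent.Y109.PI Filter Topology

theorem pair : S_PAIR := PAIR.main BAD.main (MOM1.main SQF.main NSQ.main) MOM2.main KN.main PT.T.NRG.main

theorem almost_all (g : ℕ) (hg : 2 ≤ g) {r : ℕ} (hr : 0 < r) (W : Fin r → Fin (2 * g) → Fin (2 * g) → ℤ)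
    (hdet : ∀ i, (dif (W i)).det ≠ 0)
    (hind : ∀ i j, i ≠ j → ∀ x y : ℤ, x • dif (W i) + y • dif (W j) = 0 → x = 0 ∧ y = 0) :
    Tendsto (fun H : ℕ => (Nat.card {a : Fin (2 * g) × Fin (2 * g) → Fin H //
      ¬ LowDens (PT.Asm.HiR g W fun u v => ((a (u, v) : ℕ) : ℤ)) (1 - 1 / r)} : ℝ) / (H : ℝ) ^ ((2 * g) ^ 2))
      atTop (𝓝 0) :=
  PT.Asm.almost_all CHARP.main PD.Fin.typ BOX.main PAT.main PD.T.IRR.main EX.main INJ.main PD.Fin.cycle
    PD.T.SYMM.main HENS.main FROBEX.main LIFT.main FFIX.main (FIXG.main FFIX.main) EXR.main GRP.main SQ.main pair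
    IND.main Pool.Agent.W401.Cheb.chebotarev W54.ChTor.main g hg hr W hdet hind

theorem ys : S_YS := YS.main

end Pool.Agent.H47.PT.Fin
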