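import Pool.Agent.H47.PT.Ex

/-!
# Mean size of the part of `n` composed of the primes of a set of upper density `β`
-/

set_option autoImplicit false

namespace Pool.Agent.H47.PT.Mean

open Filter Topology Real Finset Pool.Agent.H47.PT.Ex

noncomputable section

/-- Abel's inequality -/
theorem abel (f h : ℕ → ℝ) (D : ℝ) (h0 : ∀ n, 3 ≤ n → 0 ≤ h n) (hanti : ∀ n, 3 ≤ n → h (n + 1) ≤ h n)
    (hF : ∀ N, 3 ≤ N → ∑ j ∈ Finset.Icc 3 N, f j ≤ D) (N : ℕ) (hN : 3 ≤ N) :
    ∑ j ∈ Finset.Icc 3 N, f j * h j ≤ D * h 3 := by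
  have key : ∀ N, 3 ≤ N → ∑ j ∈ Finset.Icc 3 N, f j * h j ≤ D * h 3 + h N * (∑ j ∈ Finset.Icc 3 N, f j - D) := by
    intro N hN
    induction N, hN using Nat.le_induction with
    | base =>
      simp only [Finset.Icc_self, Finset.sum_singleton]
      linarith
    | succ N hN ih =>
      rw [Finset.sum_Icc_succ_top (by omega), Finset.sum_Icc_succ_top (by omega)]
      have h1 := hF N hN
      have h2 := hanti N hN
      nlinarith [mul_nonneg (sub_nonneg.2 h2) (sub_nonneg.2 h1)]
  have h1 := key N hN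
  have h2 := hF N hN
  nlinarith [mul_nonneg (h0 N hN) (sub_nonneg.2 h2)]

theorem anti (n : ℕ) (hn : 3 ≤ n) : Real.log ((n + 1 : ℕ) : ℝ) / ((n + 1 : ℕ) : ℝ) ≤ Real.log n / n := by
  have he : Real.exp 1 ≤ 3 := by
    have := Real.exp_one_lt_d9
    linarith
  have hn' : (3 : ℝ) ≤ n := by exact_mod_cast hn
  refine Real.log_div_self_antitoneOn ?_ ?_ ?_
  · exact he.trans hn'
  · refine he.trans (hn'.trans ?_)
    push_cast
    linarith
  · push_cast
    linarith

theorem sum_log_nat (N : ℕ) :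
    ∑ n ∈ Finset.Icc 1 N, Real.log (n : ℝ) =
      ∑ p ∈ PB (fun _ => True) N, (((N.factorial).factorization p : ℕ) : ℝ) * Real.log p := by
  classical
  have hb : ∀ n : ℕ, n ≠ 0 → bp (fun _ => True) n = n := by
    intro n hn
    have h := Nat.prod_factorization_pow_eq_self hn
    rw [Finsupp.prod, Nat.support_factorization] at h
    unfold bp
    refine Eq.trans (Finset.prod_congr ?_ fun _ _ => rfl) h
    ext p
    simp
  have h2 : ∀ n ∈ Finset.Icc 1 N, Real.log (n : ℝ) =
      ∑ p ∈ PB (fun _ => True) N, (n.factorization p : ℝ) * Real.log p := by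
    intro n hn
    have h0 : n ≠ 0 := by
      have := (Finset.mem_Icc.1 hn).1
      omega
    have h1 := log_bp (fun _ => True) N n h0 (Finset.mem_Icc.1 hn).2
    rw [hb n h0] at h1
    exact h1
  rw [Finset.sum_congr rfl h2, Finset.sum_comm]
  refine Finset.sum_congr rfl fun p _ => ?_
  rw [← Finset.sum_mul]
  congr 1
  have hI : Finset.Ico 1 (N + 1) = Finset.Icc 1 N := by
    ext x
    rw [Finset.mem_Ico, Finset.mem_Icc]
    omega
  rw [← Finset.prod_Ico_id_eq_factorial, hI, Nat.factorization_prod (fun n hn => by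
    have := (Finset.mem_Icc.1 hn).1
    omega), Finset.sum_apply', Nat.cast_sum]

/-- Mertens, upper bound -/
theorem mertens (N : ℕ) (hN : 1 ≤ N) : ∑ p ∈ PB (fun _ => True) N, Real.log p / p ≤ Real.log N + Real.log 4 := by
  have hN0 : (0 : ℝ) < N := by exact_mod_cast hN
  have h1 : ∑ n ∈ Finset.Icc 1 N, Real.log (n : ℝ) ≤ N * Real.log N := by
    have : ∑ n ∈ Finset.Icc 1 N, Real.log (n : ℝ) ≤ ∑ n ∈ Finset.Icc 1 N, Real.log (N : ℝ) := by
      refine Finset.sum_le_sum fun n hn => ?_
      rw [Finset.mem_Icc] at hn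
      exact Real.log_le_log (by exact_mod_cast hn.1) (by exact_mod_cast hn.2)
    rw [Finset.sum_const, Nat.card_Icc, Nat.add_sub_cancel, nsmul_eq_mul] at this
    exact this
  have h2 : ∑ p ∈ PB (fun _ => True) N, Real.log p ≤ Real.log 4 * N := by
    have := Chebyshev.theta_le_log4_mul_x (x := N) hN0.le
    rw [Chebyshev.theta_eq_sum_Icc, Nat.floor_natCast] at this
    refine le_trans (le_of_eq ?_) this
    refine Finset.sum_congr ?_ fun _ _ => rfl
    ext p
    rw [mem_PB, Finset.mem_filter, Finset.mem_Icc]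
    exact ⟨fun h => ⟨⟨Nat.zero_le _, h.1⟩, h.2.1⟩, fun h => ⟨h.1.2, h.2, trivial⟩⟩
  have h3 : ∀ p ∈ PB (fun _ => True) N, N * (Real.log p / p) - Real.log p ≤
      (((N.factorial).factorization p : ℕ) : ℝ) * Real.log p := by
    intro p hp
    obtain ⟨hpN, hpp, _⟩ := (mem_PB _ N p).1 hp
    have hp0 : (0 : ℝ) < p := by exact_mod_cast hpp.pos
    have hlog : 0 ≤ Real.log p := Real.log_nonneg (by exact_mod_cast hpp.one_le)
    have h4 : N / p ≤ (N.factorial).factorization p := by
      rw [Nat.factorization_factorial hpp (show Nat.log p N < Nat.log p N + 2 by omega)]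
      have := Finset.single_le_sum (f := fun i => N / p ^ i) (fun i _ => Nat.zero_le _)
        (show 1 ∈ Finset.Ico 1 (Nat.log p N + 2) by rw [Finset.mem_Ico]; omega)
      simpa using this
    have h5 : (N : ℝ) / p - 1 ≤ ((N / p : ℕ) : ℝ) := by
      have h6 : N < p * (N / p + 1) := Nat.lt_mul_div_succ N hpp.pos
      have h7 : (N : ℝ) < p * (((N / p : ℕ) : ℝ) + 1) := by exact_mod_cast h6
      rw [sub_le_iff_le_add, div_le_iff₀ hp0]
      linarith
    have h8 : (N : ℝ) / p - 1 ≤ (((N.factorial).factorization p : ℕ) : ℝ) := h5.trans (by exact_mod_cast h4)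
    calc N * (Real.log p / p) - Real.log p = ((N : ℝ) / p - 1) * Real.log p := by ring
      _ ≤ _ := mul_le_mul_of_nonneg_right h8 hlog
  have h4 := Finset.sum_le_sum h3
  rw [Finset.sum_sub_distrib, ← Finset.mul_sum, ← sum_log_nat] at h4
  have h5 : N * ∑ p ∈ PB (fun _ => True) N, Real.log p / p ≤ N * (Real.log N + Real.log 4) := by linarith
  exact le_of_mul_le_mul_left h5 hN0

/-- comparison of the sums of `log p / p` -/
theorem compare (B : ℕ → Prop) (c D : ℝ) (hc : 0 ≤ c) (hD : 0 ≤ D)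
    (h : ∀ N : ℕ, (pB B N : ℝ) ≤ c * Nat.primeCounting N + D) (N : ℕ) (hN : 3 ≤ N) :
    ∑ p ∈ PB B N, Real.log p / p ≤ c * ∑ p ∈ PB (fun _ => True) N, Real.log p / p + (D + c + 1) := by
  classical
  let f : ℕ → ℝ := fun j => (if j.Prime ∧ B j then 1 else 0) - c * (if j.Prime then 1 else 0)
  let g : ℕ → ℝ := fun j => Real.log j / j
  have hI : ∀ N : ℕ, 3 ≤ N → Finset.range (N + 1) = insert 0 (insert 1 (insert 2 (Finset.Icc 3 N))) := by
    intro N hN
    ext x
    simp only [Finset.mem_range, Finset.mem_insert, Finset.mem_Icc]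
    omega
  have hsplit : ∀ (F : ℕ → ℝ) (N : ℕ), 3 ≤ N → ∑ j ∈ Finset.range (N + 1), F j =
      F 0 + (F 1 + (F 2 + ∑ j ∈ Finset.Icc 3 N, F j)) := by
    intro F N hN
    rw [hI N hN, Finset.sum_insert (by simp), Finset.sum_insert (by simp), Finset.sum_insert (by simp)]
  have hf0 : f 0 = 0 := by simp [f, Nat.not_prime_zero]
  have hf1 : f 1 = 0 := by simp [f, Nat.not_prime_one]
  have hf2 : -c ≤ f 2 := by
    simp only [f]
    rw [if_pos Nat.prime_two]
    split_ifs <;> linarith
  have hf2' : f 2 ≤ 1 := by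
    simp only [f]
    rw [if_pos Nat.prime_two]
    split_ifs <;> linarith
  have hg2 : 0 ≤ g 2 ∧ g 2 ≤ 1 := by
    simp only [g]
    have h1 := Real.log_two_lt_d9
    have h2 := Real.log_two_gt_d9
    constructor
    · push_cast
      positivity
    · push_cast
      linarith
  have hg3 : 0 ≤ g 3 ∧ g 3 ≤ 1 := by
    simp only [g]
    have h1 : Real.log ((3 : ℕ) : ℝ) ≤ (3 : ℕ) - 1 := Real.log_le_sub_one_of_pos (by norm_num)
    constructor
    · exact div_nonneg (Real.log_natCast_nonneg _) (by norm_num)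
    · rw [div_le_one (by norm_num)]
      push_cast at h1 ⊢
      linarith
  have hsum : ∀ N : ℕ, ∑ j ∈ Finset.range (N + 1), f j = pB B N - c * Nat.primeCounting N := by
    intro N
    simp only [f]
    rw [Finset.sum_sub_distrib, ← Finset.mul_sum, pB_eq, Nat.primeCounting, Nat.primeCounting',
      Nat.count_eq_card_filter_range, Finset.sum_boole, Finset.sum_boole]
  have hF : ∀ N, 3 ≤ N → ∑ j ∈ Finset.Icc 3 N, f j ≤ D + c := by
    intro N hN
    have h1 := hsum N
    rw [hsplit f N hN, hf0, hf1] at h1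
    have h2 := h N
    linarith
  have h1 := abel f g (D + c) (fun n _ => div_nonneg (Real.log_natCast_nonneg _) (Nat.cast_nonneg _))
    (fun n hn => anti n hn) hF N hN
  have h2 : ∑ j ∈ Finset.range (N + 1), f j * g j =
      ∑ p ∈ PB B N, Real.log p / p - c * ∑ p ∈ PB (fun _ => True) N, Real.log p / p := by
    have e1 : ∑ p ∈ PB B N, Real.log p / p =
        ∑ j ∈ Finset.range (N + 1), (if j.Prime ∧ B j then 1 else 0) * g j := by
      simp only [g, ite_mul, one_mul, zero_mul]
      rw [← Finset.sum_filter]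
      refine Finset.sum_congr ?_ fun _ _ => rfl
      ext p
      rw [mem_PB, Finset.mem_filter, Finset.mem_range, Nat.lt_succ_iff]
    have e2 : ∑ p ∈ PB (fun _ => True) N, Real.log p / p =
        ∑ j ∈ Finset.range (N + 1), (if j.Prime then 1 else 0) * g j := by
      simp only [g, ite_mul, one_mul, zero_mul]
      rw [← Finset.sum_filter]
      refine Finset.sum_congr ?_ fun _ _ => rfl
      ext p
      rw [mem_PB, Finset.mem_filter, Finset.mem_range, Nat.lt_succ_iff]
      exact ⟨fun h => ⟨h.1, h.2.1⟩, fun h => ⟨h.1, h.2, trivial⟩⟩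
    rw [e1, e2, Finset.mul_sum, ← Finset.sum_sub_distrib]
    refine Finset.sum_congr rfl fun j _ => ?_
    simp only [f]
    ring
  rw [hsplit (fun j => f j * g j) N hN] at h2
  simp only [hf0, hf1, zero_mul, zero_add] at h2
  have h3 : f 2 * g 2 ≤ 1 := by nlinarith [hg2.1, hg2.2, hf2', hf2]
  have h4 : (D + c) * g 3 ≤ D + c := by nlinarith [hg3.1, hg3.2]
  linarith

theorem sum_log_sharp (B : ℕ → Prop) (N : ℕ) :
    ∑ n ∈ Finset.Icc 1 N, Real.log (bp B n) ≤ N * ∑ p ∈ PB B N, Real.log p / (p - 1) := by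
  have h1 : ∑ n ∈ Finset.Icc 1 N, Real.log (bp B n) =
      ∑ p ∈ PB B N, (((N.factorial).factorization p : ℕ) : ℝ) * Real.log p := by
    rw [Finset.sum_congr rfl fun n hn => log_bp B N n (by
      have := (Finset.mem_Icc.1 hn).1
      omega) (Finset.mem_Icc.1 hn).2, Finset.sum_comm]
    refine Finset.sum_congr rfl fun p _ => ?_
    rw [← Finset.sum_mul]
    congr 1
    have hI : Finset.Ico 1 (N + 1) = Finset.Icc 1 N := by
      ext x
      rw [Finset.mem_Ico, Finset.mem_Icc]
      omega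
    rw [← Finset.prod_Ico_id_eq_factorial, hI, Nat.factorization_prod (fun n hn => by
      have := (Finset.mem_Icc.1 hn).1
      omega), Finset.sum_apply', Nat.cast_sum]
  rw [h1, Finset.mul_sum]
  refine Finset.sum_le_sum fun p hp => ?_
  obtain ⟨_, hpp, _⟩ := (mem_PB B N p).1 hp
  have hp2 : (2 : ℝ) ≤ p := by exact_mod_cast hpp.two_le
  have h2 := Nat.factorization_factorial_le_div_pred hpp N
  have h4 : (N.factorial).factorization p * (p - 1) ≤ N := (Nat.mul_le_mul_right _ h2).trans (Nat.div_mul_le_self _ _)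
  have h5 : ((N.factorial).factorization p : ℝ) * ((p : ℝ) - 1) ≤ N := by
    have h6 : (((N.factorial).factorization p * (p - 1) : ℕ) : ℝ) ≤ N := by exact_mod_cast h4
    rw [Nat.cast_mul, Nat.cast_sub hpp.one_le, Nat.cast_one] at h6
    exact h6
  have hlog : 0 ≤ Real.log p := Real.log_nonneg (by linarith)
  have h6 : ((N.factorial).factorization p : ℝ) ≤ N / (p - 1) := by
    rw [le_div_iff₀ (by linarith)]
    exact h5
  calc ((N.factorial).factorization p : ℝ) * Real.log p ≤ N / (p - 1) * Real.log p :=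
        mul_le_mul_of_nonneg_right h6 hlog
    _ = _ := by ring

theorem pred_le (B : ℕ → Prop) (η : ℝ) (hη : 0 < η) : ∃ C : ℝ, 0 ≤ C ∧ ∀ N : ℕ,
    ∑ p ∈ PB B N, Real.log p / (p - 1) ≤ (1 + η) * ∑ p ∈ PB B N, Real.log p / p + C := by
  obtain ⟨P, hP⟩ := exists_nat_gt (1 + 1 / η)
  refine ⟨∑ p ∈ Finset.range P, Real.log p, Finset.sum_nonneg fun p _ => Real.log_natCast_nonneg p, fun N => ?_⟩
  have h1 : ∀ p ∈ PB B N, Real.log p / (p - 1) ≤
      (1 + η) * (Real.log p / p) + (if p < P then Real.log p else 0) := by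
    intro p hp
    obtain ⟨_, hpp, _⟩ := (mem_PB B N p).1 hp
    have hp2 : (2 : ℝ) ≤ p := by exact_mod_cast hpp.two_le
    have hlog : 0 ≤ Real.log p := Real.log_nonneg (by linarith)
    have h0 : 0 ≤ (1 + η) * (Real.log p / p) := by positivity
    split_ifs with hlt
    · have : Real.log p / (p - 1) ≤ Real.log p := div_le_self hlog (by linarith)
      linarith
    · rw [add_zero]
      have h2 : (P : ℝ) ≤ p := by exact_mod_cast not_lt.1 hlt
      have h3 : 1 / η ≤ (p : ℝ) - 1 := by linarith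
      have h4 : 1 ≤ η * ((p : ℝ) - 1) := by
        rw [div_le_iff₀ hη] at h3
        linarith
      rw [div_le_iff₀ (by linarith), ← mul_div_assoc, div_mul_eq_mul_div, le_div_iff₀ (by linarith)]
      nlinarith
  refine (Finset.sum_le_sum h1).trans ?_
  rw [Finset.sum_add_distrib, ← Finset.mul_sum]
  refine add_le_add le_rfl ?_
  rw [← Finset.sum_filter]
  refine Finset.sum_le_sum_of_subset_of_nonneg (fun p hp => ?_) fun p _ _ => Real.log_natCast_nonneg p
  rw [Finset.mem_filter] at hp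
  exact Finset.mem_range.2 hp.2

theorem tendsto_log_nat : Tendsto (fun N : ℕ => Real.log (N : ℝ)) atTop atTop :=
  Real.tendsto_log_atTop.comp tendsto_natCast_atTop_atTop

/-- the sum of the logarithms -/
theorem sum_bound (B : ℕ → Prop) (β : ℝ) (hβ0 : 0 ≤ β) (hβ1 : β ≤ 1)
    (hB : ∀ ε : ℝ, 0 < ε → ∀ᶠ N : ℕ in atTop, (pB B N : ℝ) ≤ (β + ε) * Nat.primeCounting N) (ε : ℝ) (hε : 0 < ε) :
    ∀ᶠ N : ℕ in atTop, ∑ n ∈ Finset.Icc 1 N, Real.log (bp B n) ≤ (β + ε) * (N * Real.log N) := by
  set η : ℝ := min 1 (ε / 6) with hη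
  have hη0 : 0 < η := lt_min one_pos (by positivity)
  have hη1 : η ≤ 1 := min_le_left _ _
  have hη6 : η ≤ ε / 6 := min_le_right _ _
  obtain ⟨N₀, hN₀⟩ := eventually_atTop.1 (hB η hη0)
  obtain ⟨C, hC0, hC⟩ := pred_le B η hη0
  have hall : ∀ N : ℕ, (pB B N : ℝ) ≤ (β + η) * Nat.primeCounting N + N₀ := by
    intro N
    by_cases h : N₀ ≤ N
    · have := hN₀ N h
      have h2 : (0 : ℝ) ≤ N₀ := Nat.cast_nonneg _
      linarith
    · have h1 : pB B N ≤ N₀ := by
        refine (pB_le B N).trans ?_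
        have : Nat.primeCounting N ≤ N := by
          rw [Nat.primeCounting, Nat.primeCounting', Nat.count_eq_card_filter_range]
          have h3 : (Finset.range (N + 1)).filter Nat.Prime ⊆ Finset.Icc 1 N := by
            intro p hp
            rw [Finset.mem_filter, Finset.mem_range] at hp
            rw [Finset.mem_Icc]
            exact ⟨hp.2.one_le, by omega⟩
          have := Finset.card_le_card h3
          rwa [Nat.card_Icc, Nat.add_sub_cancel] at this
        omega
      have h2 : (pB B N : ℝ) ≤ N₀ := by exact_mod_cast h1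
      have h3 : 0 ≤ (β + η) * (Nat.primeCounting N : ℝ) := by positivity
      linarith
  set K : ℝ := (1 + η) * ((β + η) * Real.log 4 + (N₀ + (β + η) + 1)) + C with hK
  filter_upwards [tendsto_log_nat.eventually_ge_atTop (2 / ε * K), eventually_ge_atTop 3] with N h1 hN
  have hN0 : (0 : ℝ) < N := by
    have : 0 < N := by omega
    exact_mod_cast this
  have hlog : 0 ≤ Real.log N := Real.log_natCast_nonneg N
  have h2 := compare B (β + η) N₀ (by positivity) (Nat.cast_nonneg _) hall N hN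
  have h3 := mertens N (by omega)
  have h4 := hC N
  have h5 := sum_log_sharp B N
  have h6 : ∑ p ∈ PB B N, Real.log p / p ≤ (β + η) * (Real.log N + Real.log 4) + (N₀ + (β + η) + 1) := by
    refine h2.trans (add_le_add ?_ le_rfl)
    exact mul_le_mul_of_nonneg_left h3 (by positivity)
  have h7 : ∑ p ∈ PB B N, Real.log p / (p - 1) ≤ (1 + η) * (β + η) * Real.log N + K := by
    refine h4.trans ?_
    have := mul_le_mul_of_nonneg_left h6 (show 0 ≤ 1 + η by positivity)
    rw [hK]
    linarith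
  have h8 : (1 + η) * (β + η) ≤ β + ε / 2 := by nlinarith
  have h9 : K ≤ ε / 2 * Real.log N := by
    have := mul_le_mul_of_nonneg_left h1 (show 0 ≤ ε / 2 by positivity)
    have e : ε / 2 * (2 / ε * K) = K := by
      field_simp
    linarith
  have h10 : ∑ p ∈ PB B N, Real.log p / (p - 1) ≤ (β + ε) * Real.log N := by
    have := mul_le_mul_of_nonneg_right h8 hlog
    linarith
  calc ∑ n ∈ Finset.Icc 1 N, Real.log (bp B n) ≤ N * ∑ p ∈ PB B N, Real.log p / (p - 1) := h5
    _ ≤ N * ((β + ε) * Real.log N) := mul_le_mul_of_nonneg_left h10 hN0.le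
    _ = _ := by ring

theorem bp_le (B : ℕ → Prop) (n : ℕ) (hn : n ≠ 0) : bp B n ≤ n := by
  have h := bp_split B n hn
  calc bp B n = 1 * bp B n := (one_mul _).symm
    _ ≤ bp (fun p => ¬ B p) n * bp B n := Nat.mul_le_mul_right _ (bp_pos _ _)
    _ = n := h.symm

/-- the mean of the exponents -/
theorem mean (B : ℕ → Prop) (β : ℝ) (hβ0 : 0 ≤ β) (hβ1 : β ≤ 1)
    (hB : ∀ ε : ℝ, 0 < ε → ∀ᶠ N : ℕ in atTop, (pB B N : ℝ) ≤ (β + ε) * Nat.primeCounting N) (ε : ℝ) (hε : 0 < ε) :
    ∀ᶠ N : ℕ in atTop, ∑ n ∈ Finset.Icc 2 N, Real.log (bp B n) / Real.log n ≤ (β + ε) * N := by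
  classical
  obtain ⟨M, hM⟩ := exists_nat_gt (4 / ε)
  have hM0 : (0 : ℝ) < M := lt_trans (by positivity) hM
  have hM1 : 1 / (M : ℝ) ≤ ε / 4 := by
    rw [div_lt_iff₀ hε] at hM
    rw [div_le_iff₀ hM0]
    linarith
  filter_upwards [sum_bound B β hβ0 hβ1 hB (ε / 4) (by positivity),
    tendsto_log_nat.eventually_ge_atTop (4 / ε * ((β + ε / 2) * Real.log M)),
    tendsto_log_nat.eventually_gt_atTop (Real.log M), eventually_ge_atTop 1] with N h1 h2 h3 hN
  have hN0 : (0 : ℝ) < N := by exact_mod_cast hN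
  have hpos : 0 < Real.log N - Real.log M := by linarith
  have hb : ∀ n : ℕ, 0 ≤ Real.log (bp B n) := fun n => Real.log_natCast_nonneg _
  have h4 : ∀ n ∈ Finset.Icc 2 N, Real.log (bp B n) / Real.log n ≤
      (if (n : ℝ) ≤ N / M then 1 else 0) + Real.log (bp B n) / (Real.log N - Real.log M) := by
    intro n hn
    rw [Finset.mem_Icc] at hn
    have hn1 : (1 : ℝ) < n := by exact_mod_cast (by omega : 1 < n)
    have hln : 0 < Real.log n := Real.log_pos hn1
    have h5 : 0 ≤ Real.log (bp B n) / (Real.log N - Real.log M) := div_nonneg (hb n) hpos.le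
    split_ifs with hle
    · have h6 : Real.log (bp B n) / Real.log n ≤ 1 := by
        rw [div_le_one hln]
        refine Real.log_le_log (by exact_mod_cast bp_pos B n) ?_
        exact_mod_cast bp_le B n (by omega)
      linarith
    · rw [zero_add]
      refine div_le_div_of_nonneg_left (hb n) hpos ?_
      rw [← Real.log_div hN0.ne' hM0.ne']
      exact Real.log_le_log (by positivity) (not_le.1 hle).le
  refine (Finset.sum_le_sum h4).trans ?_
  rw [Finset.sum_add_distrib, ← Finset.sum_div]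
  have h5 : (∑ n ∈ Finset.Icc 2 N, (if (n : ℝ) ≤ N / M then (1 : ℝ) else 0)) ≤ ε / 4 * N := by
    rw [Finset.sum_boole]
    have h6 : (Finset.Icc 2 N).filter (fun n : ℕ => (n : ℝ) ≤ N / M) ⊆ Finset.Icc 1 ⌊(N : ℝ) / M⌋₊ := by
      intro n hn
      rw [Finset.mem_filter, Finset.mem_Icc] at hn
      rw [Finset.mem_Icc]
      exact ⟨by omega, Nat.le_floor hn.2⟩
    have h7 := Finset.card_le_card h6
    rw [Nat.card_Icc, Nat.add_sub_cancel] at h7
    have h8 : (((Finset.Icc 2 N).filter (fun n : ℕ => (n : ℝ) ≤ N / M)).card : ℝ) ≤ N / M :=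
      le_trans (by exact_mod_cast h7) (Nat.floor_le (by positivity))
    refine h8.trans ?_
    rw [div_eq_mul_one_div, mul_comm]
    exact mul_le_mul_of_nonneg_right hM1 hN0.le
  have h6 : (∑ n ∈ Finset.Icc 2 N, Real.log (bp B n)) / (Real.log N - Real.log M) ≤ (β + ε / 2) * N := by
    rw [div_le_iff₀ hpos]
    have h7 : ∑ n ∈ Finset.Icc 2 N, Real.log (bp B n) ≤ ∑ n ∈ Finset.Icc 1 N, Real.log (bp B n) :=
      Finset.sum_le_sum_of_subset_of_nonneg (Finset.Icc_subset_Icc_left (by norm_num)) fun n _ _ => hb n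
    refine h7.trans (h1.trans ?_)
    have h8 : (β + ε / 4) * Real.log N ≤ (β + ε / 2) * (Real.log N - Real.log M) := by
      have := mul_le_mul_of_nonneg_left h2 (show 0 ≤ ε / 4 by positivity)
      have e : ε / 4 * (4 / ε * ((β + ε / 2) * Real.log M)) = (β + ε / 2) * Real.log M := by
        field_simp
      linarith
    have := mul_le_mul_of_nonneg_left h8 hN0.le
    linarith
  have h7 := add_le_add h5 h6
  have h8 := mul_pos hε hN0
  refine h7.trans ?_
  linarith

end

end Pool.Agent.H47.PT.Mean
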