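import Pool.Agent.H47.PT.AllN
import Pool.Agent.H47.PT.Mean
import Pool.Agent.H47.PD.Fin

/-!
# Mean exponents
-/

set_option autoImplicit false

namespace Pool.Agent.H47.PT.MeanN

open Filter Topology Real Finset

theorem mean_n (S : Set ℕ) (c : ℝ) (hc0 : 0 ≤ c) (hc1 : c ≤ 1)
    (hS : ∀ ε : ℝ, 0 < ε → ∀ᶠ N : ℕ in atTop,
      (c - ε) * (Nat.primeCounting N : ℝ) ≤ Nat.card {p : ℕ // p ≤ N ∧ p.Prime ∧ p ∈ S}) (G : ℕ → ℕ → Prop)
    (hG : ∀ m b : ℕ, 0 < m → 0 < b → (∀ p : ℕ, p.Prime → p ∣ m → p ∈ S) → G (m * b) b) :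
    ∃ b : ℕ → ℕ, (∀ n : ℕ, 0 < n → 0 < b n ∧ G n (b n)) ∧
      ∀ ε : ℝ, 0 < ε → ∀ᶠ N : ℕ in atTop,
        ∑ n ∈ Finset.Icc 2 N, Real.log (b n) / Real.log n ≤ (1 - c + ε) * N := by
  refine ⟨Ex.bp (fun p => p ∉ S), fun n hn => ⟨Ex.bp_pos _ _, ?_⟩, ?_⟩
  · have h4 := Ex.bp_split (fun p => p ∉ S) n hn.ne'
    have h5 := hG (Ex.bp (fun p => ¬ p ∉ S) n) (Ex.bp (fun p => p ∉ S) n) (Ex.bp_pos _ _) (Ex.bp_pos _ _)
      fun p hp hpd => not_not.1 (Ex.bp_prime _ n p hp hpd)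
    rw [← h4] at h5
    exact h5
  · refine Mean.mean (fun p => p ∉ S) (1 - c) (by linarith) (by linarith) fun ε hε => ?_
    filter_upwards [hS ε hε] with N hN
    have h2 : Nat.card {p : ℕ // p ≤ N ∧ p.Prime ∧ p ∈ S} + Ex.pB (fun p => p ∉ S) N = Nat.primeCounting N := by
      classical
      change Ex.pB (fun p => p ∈ S) N + _ = _
      rw [Ex.pB_eq, Ex.pB_eq, Nat.primeCounting, Nat.primeCounting', Nat.count_eq_card_filter_range,
        ← Finset.card_filter_add_card_filter_not (s := (Finset.range (N + 1)).filter Nat.Prime) (fun p => p ∈ S),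
        Finset.filter_filter, Finset.filter_filter]
      congr 2 <;>
      · ext p
        simp only [Finset.mem_filter]
    have h3 : (Nat.card {p : ℕ // p ≤ N ∧ p.Prime ∧ p ∈ S} : ℝ) + Ex.pB (fun p => p ∉ S) N = Nat.primeCounting N := by
      exact_mod_cast h2
    linarith

theorem der_bounds (g : ℕ) :
    0 ≤ 1 - ∑ k ∈ Finset.range (g + 1), (-1) ^ k / (k.factorial : ℝ) ∧
      1 - ∑ k ∈ Finset.range (g + 1), (-1) ^ k / (k.factorial : ℝ) ≤ 1 := by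
  have h := Pool.Agent.H47.PD.T.DER.main (Fin g)
  rw [Nat.card_eq_fintype_card (α := Fin g), Fintype.card_fin] at h
  rw [← h]
  constructor
  · positivity
  · refine div_le_one_of_le₀ ?_ (Nat.cast_nonneg _)
    rw [Nat.cast_le]
    exact Finite.card_subtype_le _

end Pool.Agent.H47.PT.MeanN
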