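import Pool.Agent.H47.PT.Fin

/-!
# Project PT: density one

If two polynomials `f_y(x)`, `f_{y'}(x)` of the pencil have Galois group `S_g` and different numbers of zeros modulo
one prime, then they have different numbers of zeros modulo infinitely many primes `q` (Chebotarev); with the Chinese
remainder theorem we get arbitrarily many `y` with Galois group `S_g` and pairwise different numbers of zeros
modulo suitable primes.
-/

set_option autoImplicit false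

namespace Pool.Agent.H47.PT.One

open Matrix Polynomial NumberField Filter Topology Pool.Agent.W401.Cheb
open Pool.Agent.H47.PD Pool.Agent.H47.PD.Asm Pool.Agent.Y109.PI Pool.Agent.Helper929
open Pool.Agent.H47.PT Pool.Agent.H47.PT.Asm

noncomputable section

/-- the vector of `a` modulo `p` -/
def rd (g : ℕ) (a : Fin (2 * g) → Fin (2 * g) → ℤ) (p : ℕ) : Fin (2 * g) × Fin (2 * g) → ZMod p :=
  fun i => ((a i.1 i.2 : ℤ) : ZMod p)

/-- witnesses for the Galois group and for different numbers of zeros -/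
def Wit (g : ℕ) {r : ℕ} (W : Fin r → Fin (2 * g) → Fin (2 * g) → ℤ) (a : Fin (2 * g) → Fin (2 * g) → ℤ) : Prop :=
  (∀ i, ∀ n, 2 ≤ n → n ≤ g → ∃ p : ℕ, p.Prime ∧ ¬ (p : ℤ) ∣ (dif (W i)).det ∧
      (fun i : Fin (2 * g) × Fin (2 * g) => ((a i.1 i.2 : ℤ) : ZMod p)) ∈ B g (W i) n p) ∧
  ∀ i j, i ≠ j → ∃ p : ℕ, p.Prime ∧ ¬ (p : ℤ) ∣ (dif (W i)).det ∧ ¬ (p : ℤ) ∣ (dif (W j)).det ∧
      (fun i : Fin (2 * g) × Fin (2 * g) => ((a i.1 i.2 : ℤ) : ZMod p)) ∈ B2 g (W i) (W j) p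

theorem wit_low (g : ℕ) (hg : 2 ≤ g) {r : ℕ} (hr : 0 < r)
    (W : Fin r → Fin (2 * g) → Fin (2 * g) → ℤ) (a : Fin (2 * g) → Fin (2 * g) → ℤ)
    (hdet : ∀ i, (dif (W i)).det ≠ 0) (h : Wit g W a) : LowDens (HiR g W a) (1 - 1 / r) :=
  generic PAT.main PD.T.IRR.main EX.main INJ.main PD.Fin.cycle PD.T.SYMM.main HENS.main FROBEX.main LIFT.main
    FFIX.main (FIXG.main FFIX.main) EXR.main GRP.main SQ.main Pool.Agent.W401.Cheb.chebotarev W54.ChTor.main g hg hr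
    W a hdet h.1 h.2

/-- squarefree modulo almost all primes -/
theorem sqf_almost (h : ℤ[X]) (hirr : Irreducible (h.map (Int.castRingHom ℚ))) :
    ∃ D : ℕ, 0 < D ∧ ∀ (p : ℕ) [Fact p.Prime], ¬ p ∣ D →
      ¬ (p : ℤ) ∣ h.leadingCoeff ∧ Squarefree (h.map (Int.castRingHom (ZMod p))) := by
  obtain ⟨A, B, c, hc, hAB⟩ := Pool.Agent.H47.PD.FIX.bezout h hirr
  have h0 : h ≠ 0 := by
    rintro rfl
    rw [Polynomial.map_zero] at hirr
    exact hirr.ne_zero rfl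
  refine ⟨h.leadingCoeff.natAbs * c.natAbs, Nat.mul_pos (Int.natAbs_pos.2 (leadingCoeff_ne_zero.2 h0))
    (Int.natAbs_pos.2 hc), ?_⟩
  intro p hp hpD
  have hp1 : ¬ (p : ℤ) ∣ h.leadingCoeff := by
    intro h1
    exact hpD ((Int.natCast_dvd.1 h1).mul_right _)
  have hp2 : ¬ (p : ℤ) ∣ c := by
    intro h1
    exact hpD ((Int.natCast_dvd.1 h1).mul_left _)
  have hcast : ∀ z : ℤ, (z : ZMod p) = 0 ↔ (p : ℤ) ∣ z := fun z => ZMod.intCast_zmod_eq_zero_iff_dvd z p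
  refine ⟨hp1, ?_⟩
  have hsep : (h.map (Int.castRingHom (ZMod p))).Separable := by
    have h1 := congrArg (Polynomial.map (Int.castRingHom (ZMod p))) hAB
    have e4 : (Int.castRingHom (ZMod p)) c = (c : ZMod p) := rfl
    simp only [Polynomial.map_add, Polynomial.map_mul, Polynomial.map_C, ← derivative_map, e4] at h1
    have hck : (c : ZMod p) ≠ 0 := fun h2 => hp2 ((hcast c).1 h2)
    refine ⟨C (c : ZMod p)⁻¹ * A.map (Int.castRingHom (ZMod p)),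
      C (c : ZMod p)⁻¹ * B.map (Int.castRingHom (ZMod p)), ?_⟩
    have h3 : (C (c : ZMod p)⁻¹ : (ZMod p)[X]) * C (c : ZMod p) = 1 := by
      rw [← C_mul, inv_mul_cancel₀ hck, C_1]
    rw [← h3, ← h1]
    ring
  exact hsep.squarefree

/-- a set of primes of positive density is not bounded -/
theorem unbounded (R : ℕ → Prop) (δ : ℝ) (hδ : 0 < δ)
    (h : Tendsto (fun N : ℕ => (Nat.card {p : ℕ // p ≤ N ∧ p.Prime ∧ R p} : ℝ) / (Nat.primeCounting N : ℝ)) atTop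
      (𝓝 δ)) (M : ℕ) : ∃ q, M ≤ q ∧ q.Prime ∧ R q := by
  by_contra hcon
  push Not at hcon
  have h1 : Tendsto (fun N : ℕ => (M : ℝ) / (Nat.primeCounting N : ℝ)) atTop (𝓝 0) :=
    tendsto_const_nhds.div_atTop (tendsto_natCast_atTop_atTop.comp Nat.tendsto_primeCounting)
  have h2 : δ ≤ 0 := by
    refine le_of_tendsto_of_tendsto' h h1 fun N => ?_
    refine div_le_div_of_nonneg_right ?_ (Nat.cast_nonneg _)
    rw [Nat.cast_le]
    have : {p : ℕ | p ≤ N ∧ p.Prime ∧ R p} ⊆ ↑(Finset.range M) := by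
      rintro p ⟨_, hp, hR⟩
      rw [Finset.coe_range, Set.mem_Iio]
      by_contra hlt
      exact hcon p (not_lt.1 hlt) hp hR
    have h3 := Set.ncard_le_ncard this (Finset.finite_toSet _)
    rw [Set.ncard_coe_finset, Finset.card_range] at h3
    exact h3
  linarith

/-- the numbers of zeros of two polynomials are different modulo infinitely many primes -/
theorem inf (g : ℕ) (hg : 2 ≤ g) (W₁ W₂ a : Fin (2 * g) → Fin (2 * g) → ℤ) (h₁ : (dif W₁).det ≠ 0)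
    (h₂ : (dif W₂).det ≠ 0) (irr₁ : Irreducible ((fp g W₁ a).map (Int.castRingHom ℚ)))
    (irr₂ : Irreducible ((fp g W₂ a).map (Int.castRingHom ℚ)))
    (h : ∃ p : ℕ, p.Prime ∧ ¬ (p : ℤ) ∣ (dif W₁).det ∧ ¬ (p : ℤ) ∣ (dif W₂).det ∧
      (fun i : Fin (2 * g) × Fin (2 * g) => ((a i.1 i.2 : ℤ) : ZMod p)) ∈ B2 g W₁ W₂ p) (M : ℕ) :
    ∃ q, M ≤ q ∧ q.Prime ∧
      (fun i : Fin (2 * g) × Fin (2 * g) => ((a i.1 i.2 : ℤ) : ZMod q)) ∈ B2 g W₁ W₂ q := by
  have hf₁ : fp g W₁ a ≠ 0 := by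
    intro h0
    have := (fp_deg g W₁ a h₁).1
    rw [h0, natDegree_zero] at this
    omega
  have hf₂ : fp g W₂ a ≠ 0 := by
    intro h0
    have := (fp_deg g W₂ a h₂).1
    rw [h0, natDegree_zero] at this
    omega
  have hl : ∀ W : Fin (2 * g) → Fin (2 * g) → ℤ, (dif W).det ≠ 0 → ∀ p : ℕ, ¬ (p : ℤ) ∣ (dif W).det →
      ¬ (p : ℤ) ∣ (fp g W a).leadingCoeff := by
    intro W hW p hp h
    apply hp
    rw [← (fp_deg g W a hW).2]
    exact dvd_pow h (by norm_num)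
  obtain ⟨L, _, _, _, hL⟩ := EXR.main 2 ![fp g W₁ a, fp g W₂ a] (by
    intro i
    fin_cases i
    · exact hf₁
    · exact hf₂)
  have hL₁ : SplIn (fp g W₁ a) L := hL 0
  have hL₂ : SplIn (fp g W₂ a) L := hL 1
  obtain ⟨D₁, hD₁, hs₁⟩ := sqf_almost _ irr₁
  obtain ⟨D₂, hD₂, hs₂⟩ := sqf_almost _ irr₂
  have hden := Dn.dens Pool.Agent.W401.Cheb.chebotarev W54.ChTor.main L
    (fun σ => Nat.card {r : Rt (fp g W₁ a) L // act (fp g W₁ a) L σ r = r} ≠
      Nat.card {r : Rt (fp g W₂ a) L // act (fp g W₂ a) L σ r = r})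
    (fun p => ¬ p ∣ D₁ * D₂ ∧ Nat.card {x : ZMod p // ((fp g W₁ a).map (Int.castRingHom (ZMod p))).eval x = 0} ≠
      Nat.card {x : ZMod p // ((fp g W₂ a).map (Int.castRingHom (ZMod p))).eval x = 0}) (D₁ * D₂)
    (Nat.mul_pos hD₁ hD₂) (by
      intro p hp hpD φ σ hσ
      obtain ⟨l1, s1⟩ := hs₁ p fun h => hpD (h.mul_right _)
      obtain ⟨l2, s2⟩ := hs₂ p fun h => hpD (h.mul_left _)
      rw [FFIX.main _ L hL₁ p l1 s1 φ σ hσ, FFIX.main _ L hL₂ p l2 s2 φ σ hσ]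
      exact ⟨fun h => ⟨hpD, h⟩, fun h => h.2⟩)
  obtain ⟨σ₀, hσ₀⟩ : ∃ σ : Gal(L/ℚ), Nat.card {r : Rt (fp g W₁ a) L // act (fp g W₁ a) L σ r = r} ≠
      Nat.card {r : Rt (fp g W₂ a) L // act (fp g W₂ a) L σ r = r} := by
    obtain ⟨p, hp, hp1, hp2, hB⟩ := h
    haveI : Fact p.Prime := ⟨hp⟩
    obtain ⟨_, hB1, hB2, hB3⟩ := hB
    obtain ⟨s1, c1⟩ := sqf_fp SQ.main g W₁ a p hB1
    obtain ⟨s2, c2⟩ := sqf_fp SQ.main g W₂ a p hB2
    obtain ⟨φ, σ, hσ⟩ := FROBEX.main L p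
    refine ⟨σ, ?_⟩
    rw [FFIX.main _ L hL₁ p (hl _ h₁ p hp1) s1 φ σ hσ, FFIX.main _ L hL₂ p (hl _ h₂ p hp2) s2 φ σ hσ, c1, c2]
    exact hB3
  obtain ⟨q, hMq, hq, hqD, hne⟩ := unbounded _ _ (by
    haveI : Nonempty {σ : Gal(L/ℚ) // Nat.card {r : Rt (fp g W₁ a) L // act (fp g W₁ a) L σ r = r} ≠
      Nat.card {r : Rt (fp g W₂ a) L // act (fp g W₂ a) L σ r = r}} := ⟨⟨σ₀, hσ₀⟩⟩
    have h5 : 0 < Nat.card {σ : Gal(L/ℚ) // Nat.card {r : Rt (fp g W₁ a) L // act (fp g W₁ a) L σ r = r} ≠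
      Nat.card {r : Rt (fp g W₂ a) L // act (fp g W₂ a) L σ r = r}} := Nat.card_pos
    have h6 : 0 < Nat.card Gal(L/ℚ) := Nat.card_pos
    exact div_pos (by exact_mod_cast h5) (by exact_mod_cast h6)) hden M
  haveI : Fact q.Prime := ⟨hq⟩
  obtain ⟨l1, s1⟩ := hs₁ q fun h => hqD (h.mul_right _)
  obtain ⟨l2, s2⟩ := hs₂ q fun h => hqD (h.mul_left _)
  have hG₁ : Gd (red q (dif W₁)) (Matrix.of fun u v => ((a u v : ℤ) : ZMod q)) :=
    ⟨1, _, one_ne_zero, s1, by rw [C_1, one_mul, fp_map_sq]⟩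
  have hG₂ : Gd (red q (dif W₂)) (Matrix.of fun u v => ((a u v : ℤ) : ZMod q)) :=
    ⟨1, _, one_ne_zero, s2, by rw [C_1, one_mul, fp_map_sq]⟩
  refine ⟨q, hMq, hq, hq, hG₁, hG₂, ?_⟩
  have e1 := (sqf_fp SQ.main g W₁ a q hG₁).2
  have e2 := (sqf_fp SQ.main g W₂ a q hG₂).2
  change nr (red q (dif W₁)) (Matrix.of fun u v => ((a u v : ℤ) : ZMod q)) ≠
    nr (red q (dif W₂)) (Matrix.of fun u v => ((a u v : ℤ) : ZMod q))
  rw [← e1, ← e2]
  exact hne

theorem red_line (g : ℕ) (w : Fin 2 → Fin (2 * g) → Fin (2 * g) → ℤ) (p : ℕ) (y y' : ℤ) (h : (p : ℤ) ∣ y - y') :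
    red p (dif (w 0 + y • w 1)) = red p (dif (w 0 + y' • w 1)) := by
  have h1 : (y : ZMod p) = (y' : ZMod p) := by
    rw [← sub_eq_zero, ← Int.cast_sub, ZMod.intCast_zmod_eq_zero_iff_dvd]
    exact h
  ext u v
  simp only [red, dif, Matrix.map_apply, Matrix.of_apply, Pi.add_apply, Pi.smul_apply, smul_eq_mul, map_sub, map_add,
    map_mul, eq_intCast, h1]

theorem det_line (g : ℕ) (w : Fin 2 → Fin (2 * g) → Fin (2 * g) → ℤ) (p : ℕ) (y y' : ℤ) (h : (p : ℤ) ∣ y - y') :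
    (p : ℤ) ∣ (dif (w 0 + y • w 1)).det ↔ (p : ℤ) ∣ (dif (w 0 + y' • w 1)).det := by
  rw [← ZMod.intCast_zmod_eq_zero_iff_dvd, ← ZMod.intCast_zmod_eq_zero_iff_dvd, red_det, red_det,
    red_line g w p y y' h]

theorem B_line (g : ℕ) (w : Fin 2 → Fin (2 * g) → Fin (2 * g) → ℤ) (n p : ℕ) (y y' : ℤ) (h : (p : ℤ) ∣ y - y') :
    B g (w 0 + y • w 1) n p = B g (w 0 + y' • w 1) n p := by
  simp only [B, red_line g w p y y' h]

theorem B2_line (g : ℕ) (w : Fin 2 → Fin (2 * g) → Fin (2 * g) → ℤ) (p : ℕ) (y y' z z' : ℤ)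
    (h : (p : ℤ) ∣ y - y') (h' : (p : ℤ) ∣ z - z') :
    B2 g (w 0 + y • w 1) (w 0 + z • w 1) p = B2 g (w 0 + y' • w 1) (w 0 + z' • w 1) p := by
  simp only [B2, red_line g w p y y' h, red_line g w p z z' h']

theorem B2_symm (g : ℕ) (W₁ W₂ : Fin (2 * g) → Fin (2 * g) → ℤ) (p : ℕ) (a : Fin (2 * g) × Fin (2 * g) → ZMod p)
    (h : a ∈ B2 g W₁ W₂ p) : a ∈ B2 g W₂ W₁ p := by
  obtain ⟨hp, h1, h2, h3⟩ := h
  exact ⟨hp, h2, h1, h3.symm⟩

/-- arbitrarily many lines -/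
theorem many (g : ℕ) (hg : 2 ≤ g) (w : Fin 2 → Fin (2 * g) → Fin (2 * g) → ℤ) (y : Fin 2 → ℤ)
    (a : Fin (2 * g) → Fin (2 * g) → ℤ) (hdet : ∀ i, (dif (w 0 + y i • w 1)).det ≠ 0)
    (h : Wit g (fun i => w 0 + y i • w 1) a) (r : ℕ) :
    ∃ z : Fin r → ℤ, (∀ i, (dif (w 0 + z i • w 1)).det ≠ 0) ∧ Wit g (fun i => w 0 + z i • w 1) a := by
  have hS := fun i => (surj PAT.main PD.T.IRR.main INJ.main PD.Fin.cycle PD.T.SYMM.main g hg (w 0 + y i • w 1) a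
    (hdet i) (h.1 i)).1
  -- primes for the Galois group of the first line
  have hP : ∀ n : ℕ, ∃ p : ℕ, p.Prime ∧ (2 ≤ n → n ≤ g → ¬ (p : ℤ) ∣ (dif (w 0 + y 0 • w 1)).det ∧
      (fun i : Fin (2 * g) × Fin (2 * g) => ((a i.1 i.2 : ℤ) : ZMod p)) ∈ B g (w 0 + y 0 • w 1) n p) := by
    intro n
    by_cases hn : 2 ≤ n ∧ n ≤ g
    · obtain ⟨p, hp, h1, h2⟩ := h.1 0 n hn.1 hn.2
      exact ⟨p, hp, fun _ _ => ⟨h1, h2⟩⟩
    · exact ⟨2, Nat.prime_two, fun h1 h2 => absurd ⟨h1, h2⟩ hn⟩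
  choose P hPp hPw using hP
  set M : ℕ := ∏ n ∈ Finset.range (g + 1), P n with hM
  have hM0 : 0 < M := Finset.prod_pos fun n _ => (hPp n).pos
  -- infinitely many primes for the pair
  set T : Set ℕ := {q | M + (dif (w 0 + y 0 • w 1)).det.natAbs + (dif (w 0 + y 1 • w 1)).det.natAbs + 1 ≤ q ∧ q.Prime ∧
      (fun i : Fin (2 * g) × Fin (2 * g) => ((a i.1 i.2 : ℤ) : ZMod q)) ∈
        B2 g (w 0 + y 0 • w 1) (w 0 + y 1 • w 1) q} with hT
  have hTinf : T.Infinite := by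
    refine Set.infinite_of_not_bddAbove ?_
    rintro ⟨N, hN⟩
    obtain ⟨q, h1, h2, h3⟩ := inf g hg _ _ a (hdet 0) (hdet 1) (hS 0) (hS 1) (h.2 0 1 (by decide))
      (N + 1 + (M + (dif (w 0 + y 0 • w 1)).det.natAbs + (dif (w 0 + y 1 • w 1)).det.natAbs + 1))
    have := hN (show q ∈ T from ⟨by omega, h2, h3⟩)
    omega
  obtain ⟨Q, hQinj, hQ⟩ : ∃ Q : Fin r → ℕ, Function.Injective Q ∧ ∀ j, Q j ∈ T := by
    have e := hTinf.natEmbedding
    refine ⟨fun j => (e (j : ℕ) : ℕ), fun i j hij => ?_, fun j => (e j).2⟩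
    exact Fin.ext (e.injective (Subtype.ext hij))
  have hQp : ∀ j, (Q j).Prime := fun j => (hQ j).2.1
  have hQM : ∀ j, ¬ Q j ∣ M := by
    intro j hd
    have h1 := Nat.le_of_dvd hM0 hd
    have h2 := (hQ j).1
    omega
  have hQdet : ∀ j, ∀ i, ¬ (Q j : ℤ) ∣ (dif (w 0 + y i • w 1)).det := by
    intro j i hd
    have h1 := Nat.le_of_dvd (Int.natAbs_pos.2 (hdet i)) (Int.natCast_dvd.1 hd)
    have h2 := (hQ j).1
    fin_cases i
    · simp only [Fin.zero_eta] at h1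
      omega
    · simp only [Fin.mk_one] at h1
      omega
  have he : ∀ j, ∃ e : ℤ, (M : ℤ) ∣ e ∧ (∀ i, i ≠ j → (Q i : ℤ) ∣ e) ∧ (Q j : ℤ) ∣ e - 1 := by
    intro j
    have hcop : Nat.Coprime (M * ∏ i ∈ Finset.univ.erase j, Q i) (Q j) := by
      rw [Nat.coprime_mul_iff_left]
      refine ⟨((Nat.Prime.coprime_iff_not_dvd (hQp j)).2 (hQM j)).symm, ?_⟩
      refine Nat.Coprime.prod_left fun i hi => ?_
      rw [Nat.coprime_primes (hQp i) (hQp j)]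
      exact fun h => (Finset.ne_of_mem_erase hi) (hQinj h)
    obtain ⟨u, v, huv⟩ := (Nat.isCoprime_iff_coprime.2 hcop)
    refine ⟨u * ((M * ∏ i ∈ Finset.univ.erase j, Q i : ℕ) : ℤ), ?_, fun i hi => ?_, ⟨-v, by linear_combination huv⟩⟩
    · refine Dvd.dvd.mul_left ?_ _
      exact Int.natCast_dvd_natCast.2 (dvd_mul_right _ _)
    · refine Dvd.dvd.mul_left ?_ _
      exact Int.natCast_dvd_natCast.2 ((Finset.dvd_prod_of_mem _ (Finset.mem_erase.2 ⟨hi, Finset.mem_univ i⟩)).mul_left _)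
  choose e he1 he2 he3 using he
  set z : Fin r → ℤ := fun j => y 0 + (y 1 - y 0) * e j with hz
  have hzM : ∀ j n, n ≤ g → (P n : ℤ) ∣ z j - y 0 := by
    intro j n hn
    have h1 : (P n : ℤ) ∣ e j :=
      (Int.natCast_dvd_natCast.2 (Finset.dvd_prod_of_mem _ (Finset.mem_range.2 (by omega)))).trans (he1 j)
    rw [hz]
    simp only [add_sub_cancel_left]
    exact h1.mul_left _
  have hz0 : ∀ i j, i ≠ j → (Q i : ℤ) ∣ z j - y 0 := by
    intro i j hij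
    rw [hz]
    simp only [add_sub_cancel_left]
    exact (he2 j i hij).mul_left _
  have hz1 : ∀ j, (Q j : ℤ) ∣ z j - y 1 := by
    intro j
    have : z j - y 1 = (y 1 - y 0) * (e j - 1) := by
      rw [hz]
      ring
    rw [this]
    exact (he3 j).mul_left _
  refine ⟨z, fun j h0 => ?_, fun j n hn1 hn2 => ?_, fun i j hij => ?_⟩
  · apply (hPw 2 le_rfl hg).1
    rw [← det_line g w (P 2) (z j) (y 0) (hzM j 2 hg), h0]
    exact dvd_zero _
  · refine ⟨P n, hPp n, ?_, ?_⟩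
    · rw [det_line g w (P n) (z j) (y 0) (hzM j n hn2)]
      exact (hPw n hn1 hn2).1
    · rw [B_line g w n (P n) (z j) (y 0) (hzM j n hn2)]
      exact (hPw n hn1 hn2).2
  · refine ⟨Q i, hQp i, ?_, ?_, ?_⟩
    · rw [det_line g w (Q i) (z i) (y 1) (hz1 i)]
      exact hQdet i 1
    · rw [det_line g w (Q i) (z j) (y 0) (hz0 i j hij)]
      exact hQdet i 0
    · rw [B2_line g w (Q i) (z i) (y 1) (z j) (y 0) (hz1 i) (hz0 i j hij)]
      exact B2_symm g _ _ _ _ (hQ i).2.2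

/-- density one -/
theorem dens_one (g : ℕ) (hg : 2 ≤ g) (w : Fin 2 → Fin (2 * g) → Fin (2 * g) → ℤ) (y : Fin 2 → ℤ)
    (a : Fin (2 * g) → Fin (2 * g) → ℤ) (hdet : ∀ i, (dif (w 0 + y i • w 1)).det ≠ 0)
    (h : Wit g (fun i => w 0 + y i • w 1) a) : LowDens (fun p => ∃ t : ℤ, Hi g (w 0 + t • w 1) a p) 1 := by
  intro ε hε
  obtain ⟨r, hr⟩ := exists_nat_gt (2 / ε)
  have hr0 : (0 : ℝ) < r := lt_trans (by positivity) hr
  have hr1 : 0 < r := by exact_mod_cast hr0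
  obtain ⟨z, hz1, hz2⟩ := many g hg w y a hdet h r
  have h1 := wit_low g hg hr1 _ a hz1 hz2 (ε / 2) (by positivity)
  filter_upwards [h1] with N hN
  have h2 : 1 / (r : ℝ) ≤ ε / 2 := by
    rw [div_lt_iff₀ hε] at hr
    rw [div_le_iff₀ hr0]
    linarith
  calc (1 - ε) * (Nat.primeCounting N : ℝ) ≤ (1 - 1 / r - ε / 2) * (Nat.primeCounting N : ℝ) :=
        mul_le_mul_of_nonneg_right (by linarith) (Nat.cast_nonneg _)
    _ ≤ _ := hN
    _ ≤ _ := by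
      rw [Nat.cast_le]
      have hfin : {p : ℕ | p ≤ N ∧ p.Prime ∧ ∃ t : ℤ, Hi g (w 0 + t • w 1) a p}.Finite :=
        (Set.finite_Iic N).subset fun p hp => hp.1
      refine Set.ncard_le_ncard (s := {p : ℕ | p ≤ N ∧ p.Prime ∧ HiR g (fun i => w 0 + z i • w 1) a p}) ?_ hfin
      rintro p ⟨h3, h4, i, h5⟩
      exact ⟨h3, h4, z i, h5⟩

/-- almost all classes have witnesses -/
theorem almost_wit (g : ℕ) (hg : 2 ≤ g) {r : ℕ} (W : Fin r → Fin (2 * g) → Fin (2 * g) → ℤ)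
    (hdet : ∀ i, (dif (W i)).det ≠ 0)
    (hind : ∀ i j, i ≠ j → ∀ x y : ℤ, x • dif (W i) + y • dif (W j) = 0 → x = 0 ∧ y = 0) :
    Tendsto (fun H : ℕ => (Nat.card {a : Fin (2 * g) × Fin (2 * g) → Fin H //
      ¬ Wit g W fun u v => ((a (u, v) : ℕ) : ℤ)} : ℝ) / (H : ℝ) ^ ((2 * g) ^ 2)) atTop (𝓝 0) := by
  -- all the families of sets
  let T : Type := (Fin r × Fin (g + 1)) ⊕ (Fin r × Fin r)
  let S : T → ∀ p : ℕ, Set (Fin (2 * g) × Fin (2 * g) → ZMod p) := fun t => match t with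
    | Sum.inl q => fun p => if 2 ≤ (q.2 : ℕ) then B g (W q.1) q.2 p else Set.univ
    | Sum.inr q => fun p => if q.1 = q.2 then Set.univ else B2 g (W q.1) (W q.2) p
  have huniv : ∃ c : ℝ, 0 < c ∧ ∃ p₀ : ℕ, ∀ p : ℕ, p.Prime → p₀ ≤ p →
      c * (p : ℝ) ^ Fintype.card (Fin (2 * g) × Fin (2 * g)) ≤
        Nat.card (Set.univ : Set (Fin (2 * g) × Fin (2 * g) → ZMod p)) := by
    refine ⟨1, one_pos, 0, fun p hp _ => ?_⟩
    haveI : NeZero p := ⟨hp.ne_zero⟩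
    rw [one_mul, Nat.card_univ, Nat.card_fun, Nat.card_eq_fintype_card, Nat.card_eq_fintype_card, ZMod.card]
    push_cast
    exact le_rfl
  have hc : ∀ t : T, ∃ c : ℝ, 0 < c ∧ ∃ p₀ : ℕ, ∀ p : ℕ, p.Prime → p₀ ≤ p →
      c * (p : ℝ) ^ Fintype.card (Fin (2 * g) × Fin (2 * g)) ≤ Nat.card (S t p) := by
    rintro (q | q)
    · by_cases h2 : 2 ≤ (q.2 : ℕ)
      · have := card_B CHARP.main PD.Fin.typ g (by omega) (W q.1) (hdet q.1) q.2 h2 (by omega)
        simpa only [S, if_pos h2] using this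
      · simpa only [S, if_neg h2] using huniv
    · by_cases h2 : q.1 = q.2
      · simpa only [S, if_pos h2] using huniv
      · have := card_B2 Fin.pair IND.main g hg (W q.1) (W q.2) (hdet q.1) (hdet q.2) (hind _ _ h2)
        simpa only [S, if_neg h2] using this
  choose c hc0 p₀ hp₀ using hc
  set q : ℕ := (∑ t, p₀ t) + (∑ i, ((dif (W i)).det.natAbs + 1)) with hq
  have hqn : ∀ t, p₀ t ≤ q := by
    intro t
    have := Finset.single_le_sum (f := p₀) (fun i _ => Nat.zero_le _) (Finset.mem_univ t)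
    omega
  have hqd : ∀ p, q ≤ p → ∀ i, ¬ (p : ℤ) ∣ (dif (W i)).det := by
    intro p hp i h
    have h3 := Nat.le_of_dvd (Int.natAbs_pos.2 (hdet i)) (Int.natCast_dvd.1 h)
    have := Finset.single_le_sum (f := fun i => (dif (W i)).det.natAbs + 1) (fun i _ => Nat.zero_le _)
      (Finset.mem_univ i)
    omega
  have hbox := fun t : T => BOX.main (Fin (2 * g) × Fin (2 * g)) (S t) (c t) q (hc0 t)
      (fun p hp hpq => hp₀ t p hp ((hqn t).trans hpq))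
  have e1 : Fintype.card (Fin (2 * g) × Fin (2 * g)) = (2 * g) ^ 2 := by
    rw [Fintype.card_prod, Fintype.card_fin, sq]
  rw [e1] at hbox
  have hsum : Tendsto (fun H : ℕ => ∑ t : T,
      (Nat.card {a : Fin (2 * g) × Fin (2 * g) → Fin H //
        ∀ p : ℕ, p.Prime → q ≤ p → (fun i => ((a i : ℕ) : ZMod p)) ∉ S t p} : ℝ) / (H : ℝ) ^ ((2 * g) ^ 2))
      atTop (𝓝 0) := by
    have := tendsto_finset_sum (Finset.univ : Finset T) fun t _ => hbox t
    simpa using this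
  refine squeeze_zero (fun H => by positivity) (fun H => ?_) hsum
  rw [← Finset.sum_div]
  refine div_le_div_of_nonneg_right ?_ (by positivity)
  have hsub : {a : Fin (2 * g) × Fin (2 * g) → Fin H | ¬ Wit g W fun u v => ((a (u, v) : ℕ) : ℤ)} ⊆
      ⋃ t ∈ (Finset.univ : Finset T), {a : Fin (2 * g) × Fin (2 * g) → Fin H |
        ∀ p : ℕ, p.Prime → q ≤ p → (fun i => ((a i : ℕ) : ZMod p)) ∉ S t p} := by
    intro a ha
    by_contra hcon
    apply ha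
    simp only [Set.mem_iUnion, not_exists] at hcon
    have h3 : ∀ t : T, ∃ p : ℕ, p.Prime ∧ q ≤ p ∧
        (fun i : Fin (2 * g) × Fin (2 * g) => ((((a (i.1, i.2) : ℕ) : ℤ)) : ZMod p)) ∈ S t p := by
      intro t
      have h3 := hcon t (Finset.mem_univ t)
      simp only [Set.mem_setOf_eq, not_forall, not_not] at h3
      obtain ⟨p, hp, hpq, h4⟩ := h3
      refine ⟨p, hp, hpq, ?_⟩
      convert h4 using 1
      ext i
      simp
    refine ⟨?_, ?_⟩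
    · intro i n h1 h2
      obtain ⟨p, hp, hpq, h4⟩ := h3 (Sum.inl (i, ⟨n, by omega⟩))
      simp only [S, if_pos h1] at h4
      exact ⟨p, hp, hqd p hpq i, h4⟩
    · intro i j hij
      obtain ⟨p, hp, hpq, h4⟩ := h3 (Sum.inr (i, j))
      simp only [S, if_neg hij] at h4
      exact ⟨p, hp, hqd p hpq i, hqd p hpq j, h4⟩
  have h5 : Nat.card {a : Fin (2 * g) × Fin (2 * g) → Fin H // ¬ Wit g W fun u v => ((a (u, v) : ℕ) : ℤ)} ≤
      ∑ t : T, Nat.card {a : Fin (2 * g) × Fin (2 * g) → Fin H //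
        ∀ p : ℕ, p.Prime → q ≤ p → (fun i => ((a i : ℕ) : ZMod p)) ∉ S t p} := by
    refine (Set.ncard_le_ncard hsub (Set.toFinite _)).trans ?_
    exact Finset.set_ncard_biUnion_le _ _
  exact_mod_cast h5

/-- natural density one -/
theorem tendsto_one (R : ℕ → Prop) (h : LowDens R 1) :
    Tendsto (fun N : ℕ => (Nat.card {p : ℕ // p ≤ N ∧ p.Prime ∧ R p} : ℝ) / (Nat.primeCounting N : ℝ)) atTop
      (𝓝 1) := by
  have hle : ∀ N : ℕ, Nat.card {p : ℕ // p ≤ N ∧ p.Prime ∧ R p} ≤ Nat.primeCounting N := by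
    intro N
    rw [Nat.primeCounting, Nat.primeCounting', Nat.count_eq_card_filter_range]
    have : {p : ℕ | p ≤ N ∧ p.Prime ∧ R p} ⊆ ↑((Finset.range (N + 1)).filter Nat.Prime) := by
      rintro p ⟨h1, h2, _⟩
      rw [Finset.coe_filter]
      exact ⟨Finset.mem_range.2 (by omega), h2⟩
    have h3 := Set.ncard_le_ncard this (Finset.finite_toSet _)
    rw [Set.ncard_coe_finset] at h3
    exact h3
  have ht : Tendsto (fun N : ℕ => (Nat.primeCounting N : ℝ)) atTop atTop :=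
    tendsto_natCast_atTop_atTop.comp Nat.tendsto_primeCounting
  rw [tendsto_order]
  constructor
  · intro b hb
    filter_upwards [h ((1 - b) / 2) (by linarith), ht.eventually_gt_atTop 0] with N h1 h2
    rw [lt_div_iff₀ h2]
    refine lt_of_lt_of_le ?_ h1
    exact mul_lt_mul_of_pos_right (by linarith) h2
  · intro b hb
    filter_upwards [ht.eventually_gt_atTop 0] with N h2
    rw [div_lt_iff₀ h2]
    have h3 : (Nat.card {p : ℕ // p ≤ N ∧ p.Prime ∧ R p} : ℝ) ≤ Nat.primeCounting N := by exact_mod_cast hle N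
    nlinarith

end

end Pool.Agent.H47.PT.One
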