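import Pool.Agent.H47.PD.Stm

/-!
# Project PT (MP_43d240_ag): two polarizations

Part 1: Galois groups of several polynomials in a common Galois extension `L` in which they split.
Part 2: the Pfaffian polynomials of two pencils `A + x D_1` and `A + x D_2` over a finite field are different for a
positive proportion of all `A`.
-/

set_option autoImplicit false

namespace Pool.Agent.H47.PT

open Matrix Polynomial NumberField Filter Topology Pool.Agent.W401.Cheb Pool.Agent.H47.PD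

/-- `h` splits in `L` (in `PD` only the case of the splitting field was used) -/
def SplIn (h : ℤ[X]) (L : Type) [Field L] : Prop := (h.map (Int.castRingHom L)).Splits

/-- PT-LIFT. The permutations of the roots by the Galois group of the splitting field `L₀` and by the one of a larger
Galois extension `L` are the same: an embedding of `L₀` in `L` gives the bijection, and every automorphism of `L₀` can
be extended to `L`. -/
def S_LIFT : Prop := ∀ (h : ℤ[X]) (L₀ : Type) [Field L₀] [NumberField L₀] [IsGalois ℚ L₀] (L : Type) [Field L]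
  [NumberField L] [IsGalois ℚ L], h ≠ 0 → Spl h L₀ → SplIn h L →
  ∃ e : Rt h L₀ ≃ Rt h L, ∀ τ : Gal(L₀/ℚ), ∃ σ : Gal(L/ℚ), ∀ r, act h L σ (e r) = e (act h L₀ τ r)

/-- PT-FFIX. Roots modulo `p` and fixed roots (compare `PD/T/ROOTS.lean`, `PD/T/FIX.lean`; there for `Spl h L`, but only
the splitting of `h` in `L` is used). -/
def S_FFIX : Prop := ∀ (h : ℤ[X]) (L : Type) [Field L] [NumberField L] [IsGalois ℚ L], SplIn h L →
  ∀ (p : ℕ) [Fact p.Prime], ¬ (p : ℤ) ∣ h.leadingCoeff → Squarefree (h.map (Int.castRingHom (ZMod p))) →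
  ∀ (φ : 𝓞 L →+* AlgebraicClosure (ZMod p)) (σ : Gal(L/ℚ)), HasFrob p φ σ →
    Nat.card {r : Rt h L // act h L σ r = r} =
      Nat.card {x : ZMod p // (h.map (Int.castRingHom (ZMod p))).eval x = 0}

/-- PT-FIXG. The same as `PD.S_FIX` with `SplIn` instead of `Spl` (from FFIX: almost all `p` satisfy the
hypotheses). -/
def S_FIXG : Prop := ∀ (h : ℤ[X]) (L : Type) [Field L] [NumberField L] [IsGalois ℚ L], SplIn h L →
  Irreducible (h.map (Int.castRingHom ℚ)) →
  ∃ D : ℕ, 0 < D ∧ ∀ (p : ℕ) [Fact p.Prime], ¬ p ∣ D →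
    ∀ (φ : 𝓞 L →+* AlgebraicClosure (ZMod p)) (σ : Gal(L/ℚ)), HasFrob p φ σ →
      ((∃ r : Rt h L, act h L σ r = r) ↔ ∃ x : ℤ, (p : ℤ) ∣ h.eval x)

/-- PT-EXR. There is a Galois number field in which finitely many polynomials split (compare `PD/T/EX.lean`, applied
to the product). -/
def S_EXR : Prop := ∀ (r : ℕ) (h : Fin r → ℤ[X]), (∀ i, h i ≠ 0) →
  ∃ (L : Type) (_ : Field L) (_ : NumberField L) (_ : IsGalois ℚ L), ∀ i, SplIn (h i) L

/-- PT-GRP. Let a finite group `G` act on sets `X_1, …, X_r` with `g ≥ 2` elements, in each case as the full symmetric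
group, and suppose that for `i ≠ j` some element has different numbers of fixed points on `X_i` and `X_j`. Then at most
`|G| / r` elements have no fixed point at all. Proof: let `F_i` be the number of fixed points on `X_i`. By the formula of
Burnside `∑ F_i = |G|`, `∑ F_i ^ 2 = 2 |G|` (two orbits on `X_i × X_i`) and `∑ F_i F_j = m |G|`, where `m ≥ 1` is
the number of the orbits on `X_i × X_j`. As `0 < ∑ (F_i - F_j) ^ 2 = (4 - 2 m) |G|`, `m = 1`. So
`∑_σ (∑_i (F_i(σ) - 1)) ^ 2 = r |G|`, and elements without fixed points contribute `r ^ 2`. -/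
def S_GRP : Prop := ∀ (G : Type) [Group G] [Finite G] (r g : ℕ) (X : Fin r → Type) [∀ i, Finite (X i)]
  (a : ∀ i, G →* Equiv.Perm (X i)), 2 ≤ g → (∀ i, Nat.card (X i) = g) →
  (∀ i, Function.Surjective (a i)) →
  (∀ i j, i ≠ j → ∃ σ : G, Nat.card {x : X i // a i σ x = x} ≠ Nat.card {x : X j // a j σ x = x}) →
  r * Nat.card {σ : G // ∀ i, ∀ x : X i, a i σ x ≠ x} ≤ Nat.card G

/-- PT-SQ. -/
def S_SQ : Prop := ∀ (F : Type) [Field F] (f h : F[X]) (c : F), c ≠ 0 → Squarefree f → h ^ 2 = C c * f ^ 2 →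
  Squarefree h ∧ ∀ x, h.eval x = 0 ↔ f.eval x = 0

/-- PT-YS. There are arbitrarily many integers `y` with `det (D_1 + y D_2) ≠ 0`. -/
def S_YS : Prop := ∀ (I : Type) [Fintype I] [DecidableEq I] (D₁ D₂ : Matrix I I ℤ), D₁.det ≠ 0 →
  ∀ r : ℕ, ∃ y : Fin r → ℤ, Function.Injective y ∧ ∀ i, (D₁ + y i • D₂).det ≠ 0

/-- PT-IND. Linear independence modulo almost all primes (a minor of size two is not zero). -/
def S_IND : Prop := ∀ (I : Type) [Fintype I] (D₁ D₂ : Matrix I I ℤ),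
  (∀ x y : ℤ, x • D₁ + y • D₂ = 0 → x = 0 ∧ y = 0) →
  ∃ N : ℕ, 0 < N ∧ ∀ p : ℕ, p.Prime → ¬ p ∣ N → ∀ x y : ZMod p,
    x • D₁.map (Int.castRingHom (ZMod p)) + y • D₂.map (Int.castRingHom (ZMod p)) = 0 → x = 0 ∧ y = 0

section

variable {F : Type} [Field F] {I : Type} [Fintype I] [DecidableEq I]

/-- the number of the `x` with `det (A + x D) = 0`, `A = w - wᵀ` -/
noncomputable def nr (D w : Matrix I I F) : ℕ := Nat.card {x : F // ((w - wᵀ) + x • D).det = 0}

/-- the number of the pairs `(x, a)`, `a ≠ 0`, with `(A + x D) a = 0` -/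
noncomputable def kr (D w : Matrix I I F) : ℕ :=
  Nat.card {q : F × (I → F) // q.2 ≠ 0 ∧ ((w - wᵀ) + q.1 • D) *ᵥ q.2 = 0}

/-- the Pfaffian polynomial is squarefree -/
def Gd (D w : Matrix I I F) : Prop := ∃ (c : F) (f : F[X]), c ≠ 0 ∧ Squarefree f ∧
  ((w - wᵀ).map C + (X : F[X]) • D.map C).det = C c * f ^ 2

/-- alternating -/
def Al (D : Matrix I I F) : Prop := (∀ u, D u u = 0) ∧ ∀ u v, D u v = -D v u

end

/-- PT-SQF. The number of the monic polynomials of degree `g` which are not squarefree is at most `g q ^ (g-1)`: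
they are `u ^ 2 v` with monic `u` of degree `k ≥ 1` and `v` of degree `g - 2 k`. -/
def S_SQF : Prop := ∀ (F : Type) [Field F] [Fintype F] (g : ℕ), 1 ≤ g →
  Nat.card {c : Fin g → F // ¬ Squarefree (X ^ g + ∑ j : Fin g, C (c j) * X ^ (j : ℕ) : F[X])} ≤
    g * Fintype.card F ^ (g - 1)

/-- PT-NSQ. `∑ N(c) ^ 2 = 2 q ^ g - q ^ (g-1)`: for `x ≠ y` there are `q ^ (g-2)` polynomials with the roots `x`, `y`, for
`x = y` there are `q ^ (g-1)` (compare `PF/T/NOROOT.lean`). -/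
def S_NSQ : Prop := ∀ (F : Type) [Field F] [Fintype F] (g : ℕ), 2 ≤ g →
  (∑ c : Fin g → F, Nat.card {x : F // x ^ g + ∑ j : Fin g, c j * x ^ (j : ℕ) = 0} ^ 2) +
    Fintype.card F ^ (g - 1) = 2 * Fintype.card F ^ g

/-- PT-KN. A singular alternating matrix of even size has at least `q ^ 2 - 1` vectors `a ≠ 0` in its kernel. -/
def S_KN : Prop := ∀ (F : Type) [Field F] [Fintype F] (I : Type) [Fintype I] [DecidableEq I] (D w : Matrix I I F),
  Al D → Even (Fintype.card I) → (Fintype.card F ^ 2 - 1) * nr D w ≤ kr D w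

/-- PT-BAD (from SQF, `PD.S_CHARP`, and the modules `PF.Cnt` (theorem `count`), `PF.Fin` (`cyc`, `last`)). For almost all
`w` the Pfaffian polynomial is squarefree. Proof: `count` with `P` the set of the `c` with squarefree
`f_c = X ^ g + ∑ c_j X ^ j`, `|P| ≥ (1 - g/q) q ^ g`; CHARP gives `det (X E - A) = det E f_c ^ 2`; substitute `-X`
(as in `PD/Asm.lean`, theorem `card_B`); `∏_{m<g-1} (1 - q ^ (-2(m+1))) ≥ 1 - g / q ^ 2`. -/
def S_BAD : Prop := ∀ g : ℕ, 1 ≤ g → ∃ K : ℝ, 0 < K ∧ ∀ (F : Type) [Field F] [Fintype F] (I : Type) [Fintype I]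
  [DecidableEq I] (D : Matrix I I F), Fintype.card I = 2 * g → Al D → IsUnit D.det →
  (Nat.card {w : Matrix I I F // ¬ Gd D w} : ℝ) ≤ K / Fintype.card F * Nat.card (Matrix I I F)

/-- PT-MOM1 (from SQF, NSQ, `PD.S_CHARP`, `PF.Cnt.count`, `PF.Fin`). Proof: `nr ^ 2 = ∑_{k=1}^{g} (2k-1) [nr ≥ k]` on the
good `w` (`nr ≤ g` there: `nr` is the number of the roots of `f`, of degree `g`); `count` with
`P_k = {c | f_c squarefree, N(c) ≥ k}` for each `k`; `∑_k (2k-1) |P_k| = ∑_{c squarefree} N(c) ^ 2 ≥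
2 q ^ g - q ^ (g-1) - g ^ 2 · g q ^ (g-1)` by NSQ and SQF. (`N(c)` and `nr` agree up to `x ↦ -x`.) -/
def S_MOM1 : Prop := ∀ g : ℕ, 2 ≤ g → ∃ K : ℝ, 0 < K ∧ ∀ (F : Type) [Field F] [Fintype F] (I : Type) [Fintype I]
  [DecidableEq I] (D : Matrix I I F), Fintype.card I = 2 * g → Al D → IsUnit D.det →
  (2 - K / Fintype.card F) * Nat.card (Matrix I I F) ≤
    ∑ᶠ w : {w : Matrix I I F // Gd D w}, (nr D w.1 : ℝ) ^ 2

/-- PT-NRG. On the good `w` there are at most `g` singular translates. -/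
def S_NRG : Prop := ∀ (F : Type) [Field F] [Fintype F] (I : Type) [Fintype I] [DecidableEq I] (D w : Matrix I I F)
  (g : ℕ), Fintype.card I = 2 * g → Gd D w → nr D w ≤ g

/-- PT-MOM2. Library: module `H47/L/R_pool_sql_team_seeded_2aa45f1a/Q128/PI/Two.lean` (`Ev D a w` is
`(w - wᵀ + D) a = 0`, `AltM` is `Al`; lemmas `sum_pairs_ne`, `sum_pairs_all`, `card_ker_le`; the same computation is in
the proof of `almost` there). Proof: the left side is the sum over `x, y` and `a, b ≠ 0` of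
`#{w : Ev (x D_1) a w ∧ Ev (y D_2) b w}`. Let `n = q ^ |I|`, `M` the number of all matrices. For `(x, y) ≠ (0, 0)` and `a`
with `(y D_2 - x D_1) a ≠ 0` the sum over `b` is at most `q ^ 2 M / n` (`sum_pairs_ne`), for the other `a`, at most
`n / q ^ 2` vectors (`card_ker_le`), it is at most `(q ^ 3 + q ^ 2) M / n` (`sum_pairs_all`); the same for all `a` if
`x = y = 0`. The total is at most `q ^ 4 M + q ^ 2 (q + 1) M + (q ^ 3 + q ^ 2) M`. -/
def S_MOM2 : Prop := ∀ (F : Type) [Field F] [Fintype F] (I : Type) [Fintype I] [DecidableEq I]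
  (D₁ D₂ : Matrix I I F), Al D₁ → Al D₂ → (∀ x y : F, x • D₁ + y • D₂ = 0 → x = 0 ∧ y = 0) →
  ∑ᶠ w : Matrix I I F, kr D₁ w * kr D₂ w ≤
    (Fintype.card F ^ 4 + 2 * Fintype.card F ^ 3 + 2 * Fintype.card F ^ 2) * Nat.card (Matrix I I F)

/-- PT-PAIR (from BAD, MOM1, MOM2, KN, NRG). The two Pfaffian polynomials are squarefree and have different numbers of
zeros for a positive proportion of all `w`. Proof: let `Z` be the set of the `w` which are good for both. By KN
and MOM2 `∑_Z nr_1 nr_2 ≤ (q ^ 2 - 1) ^ (-2) (q ^ 4 + 2 q ^ 3 + 2 q ^ 2) M = (1 + O(1/q)) M`; by MOM1, BAD, NRG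
`∑_Z nr_i ^ 2 ≥ (2 - K/q) M - g ^ 2 K/q M`. So `∑_Z (nr_1 - nr_2) ^ 2 ≥ (2 - O(1/q)) M ≥ M` for large `q`, and each term is
at most `g ^ 2`. -/
def S_PAIR : Prop := ∀ g : ℕ, 2 ≤ g → ∃ c : ℝ, 0 < c ∧ ∃ q₀ : ℕ, ∀ (F : Type) [Field F] [Fintype F] (I : Type)
  [Fintype I] [DecidableEq I] (D₁ D₂ : Matrix I I F), q₀ ≤ Fintype.card F → Fintype.card I = 2 * g →
  Al D₁ → Al D₂ → IsUnit D₁.det → IsUnit D₂.det → (∀ x y : F, x • D₁ + y • D₂ = 0 → x = 0 ∧ y = 0) →
  c * Nat.card (Matrix I I F) ≤ Nat.card {w : Matrix I I F // Gd D₁ w ∧ Gd D₂ w ∧ nr D₁ w ≠ nr D₂ w}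

end Pool.Agent.H47.PT
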